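import Pool.Agent.H881.SH.WiM

/-! Project SD (dynamical localization): the Green function in a cone at a simple eigenvalue. -/

set_option autoImplicit false
set_option linter.unusedSectionVars false

open scoped BigOperators InnerProductSpace Topology ENNReal ComplexConjugate
open Filter MeasureTheory

namespace Pool.Agent.H121.SD

open Pool.Agent.Y662.TR (LL dv inner_dv ll_sum ll_summable)
open Pool.Agent.TH369.MU (ep zk)
open Pool.Agent.H987.Z (Rs)
open Pool.Agent.H121.GA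
open Pool.Agent.H717.Z987 (fin_atoms)

/-- the cone -/
def Cn (e : ℝ) : Set ℂ := {z | 0 < z.im ∧ |z.re - e| ≤ z.im}

theorem cn_le {e : ℝ} {z : ℂ} (hz : z ∈ Cn e) : ‖(e : ℂ) - z‖ ≤ 2 * z.im := by
  obtain ⟨h1, h2⟩ := hz
  refine (Complex.norm_le_abs_re_add_abs_im _).trans ?_
  simp only [Complex.sub_re, Complex.ofReal_re, Complex.sub_im, Complex.ofReal_im, zero_sub,
    abs_neg]
  rw [abs_sub_comm, abs_of_pos h1]
  linarith

theorem cn_ge {e : ℝ} {z : ℂ} (hz : z ∈ Cn e) : z.im ≤ ‖(e : ℂ) - z‖ := by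
  obtain ⟨h1, -⟩ := hz
  have := Complex.abs_im_le_norm ((e : ℂ) - z)
  simp only [Complex.sub_im, Complex.ofReal_im, zero_sub, abs_neg] at this
  rw [abs_of_pos h1] at this
  exact this

theorem cn_sq {e : ℝ} {z : ℂ} (hz : z ∈ Cn e) : ‖(e : ℂ) - z‖ ^ 2 ≤ 2 * z.im ^ 2 := by
  obtain ⟨h1, h2⟩ := hz
  rw [← Complex.normSq_eq_norm_sq, Complex.normSq_apply]
  simp only [Complex.sub_re, Complex.ofReal_re, Complex.sub_im, Complex.ofReal_im, zero_sub]
  have h3 : (e - z.re) * (e - z.re) = |z.re - e| ^ 2 := by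
    rw [sq_abs]
    ring
  rw [h3]
  have h4 : |z.re - e| ^ 2 ≤ z.im ^ 2 := by
    have := abs_nonneg (z.re - e)
    gcongr
  nlinarith

/-- the weight of an atom -/
theorem cone_lim (m : Measure ℝ) [IsFiniteMeasure m] (e : ℝ) :
    Tendsto (fun z : ℂ => ((e : ℂ) - z) * ∫ x : ℝ, ((x : ℂ) - z)⁻¹ ∂m) (𝓝[Cn e] (e : ℂ))
      (𝓝 ((m.real {e} : ℝ) : ℂ)) := by
  classical
  have h1 : ((m.real {e} : ℝ) : ℂ) = ∫ x : ℝ, (({e} : Set ℝ).indicator (fun _ => (1 : ℂ)) x) ∂m := by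
    rw [integral_indicator (measurableSet_singleton e), integral_const]
    simp
    rfl
  have h2 : ∀ z : ℂ, ((e : ℂ) - z) * ∫ x : ℝ, ((x : ℂ) - z)⁻¹ ∂m =
      ∫ x : ℝ, ((e : ℂ) - z) * ((x : ℂ) - z)⁻¹ ∂m := by
    intro z
    rw [integral_const_mul]
  rw [h1]
  simp_rw [h2]
  refine tendsto_integral_filter_of_dominated_convergence (fun _ => (2 : ℝ)) ?_ ?_
    (integrable_const _) ?_
  · refine Eventually.of_forall fun z => ?_
    refine Measurable.aestronglyMeasurable ?_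
    fun_prop
  · filter_upwards [self_mem_nhdsWithin] with z hz
    refine Eventually.of_forall fun x => ?_
    rw [norm_mul, norm_inv]
    have h3 := cn_le hz
    have h4 : z.im ≤ ‖(x : ℂ) - z‖ := by
      have := Complex.abs_im_le_norm ((x : ℂ) - z)
      simp only [Complex.sub_im, Complex.ofReal_im, zero_sub, abs_neg] at this
      rw [abs_of_pos hz.1] at this
      exact this
    have h5 : 0 < ‖(x : ℂ) - z‖ := lt_of_lt_of_le hz.1 h4
    rw [← div_eq_mul_inv, div_le_iff₀ h5]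
    linarith
  · refine Eventually.of_forall fun x => ?_
    by_cases hx : x = e
    · subst hx
      rw [Set.indicator_of_mem (Set.mem_singleton x)]
      refine tendsto_const_nhds.congr' ?_
      filter_upwards [self_mem_nhdsWithin] with z hz
      have h3 : (x : ℂ) - z ≠ 0 := by
        intro h
        have := cn_ge hz
        rw [h, norm_zero] at this
        exact absurd hz.1 (not_lt.2 this)
      rw [mul_inv_cancel₀ h3]
    · rw [Set.indicator_of_notMem (by simpa using hx)]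
      have h3 : (x : ℂ) - (e : ℂ) ≠ 0 := by
        rw [← Complex.ofReal_sub]
        exact_mod_cast sub_ne_zero.2 hx
      have h4 : Tendsto (fun z : ℂ => ((e : ℂ) - z) * ((x : ℂ) - z)⁻¹) (𝓝 (e : ℂ))
          (𝓝 (((e : ℂ) - (e : ℂ)) * ((x : ℂ) - (e : ℂ))⁻¹)) := by
        refine Tendsto.mul (tendsto_const_nhds.sub tendsto_id) ?_
        exact (tendsto_const_nhds.sub tendsto_id).inv₀ h3
      rw [sub_self, zero_mul] at h4
      exact h4.mono_left nhdsWithin_le_nhds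

/-- polarization -/
theorem polz {ι : Type} {R : ℂ → LL ι →L[ℂ] LL ι} (hR : Rf R) (x y : ι) (mp mn : Measure ℝ)
    (hp : SpR R (dv x + dv y) mp) (hn : SpR R (dv x - dv y) mn) (z : ℂ) (hz : z.im ≠ 0) :
    4 * R z (dv y) x = (∫ x : ℝ, ((x : ℂ) - z)⁻¹ ∂mp) - ∫ x : ℝ, ((x : ℂ) - z)⁻¹ ∂mn := by
  rw [← hp.2 z hz, ← hn.2 z hz]
  simp only [inner_add_left, inner_sub_left, map_add, map_sub, inner_add_right, inner_sub_right,
    inner_dv]
  have h := hR.sy z hz x y
  rw [← h]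
  ring

/-- the Green function at a simple eigenvalue -/
theorem cone_gr {ι : Type} [Countable ι] (T : LL ι →L[ℂ] LL ι) (hT : Rs T) (V : ι → ℝ) (x y : ι)
    (e : ℝ) (u : LL ι)
    (hu : ∀ p, T u p + ((V p : ℝ) : ℂ) * u p = ((e : ℝ) : ℂ) * u p) (hu1 : ‖u‖ = 1)
    (hs : ∀ v : LL ι, (∀ p, T v p + ((V p : ℝ) : ℂ) * v p = ((e : ℝ) : ℂ) * v p) →
      ∃ a : ℂ, v = a • u) :
    Tendsto (fun z : ℂ => ((e : ℂ) - z) * GU T V z x y) (𝓝[Cn e] (e : ℂ))
      (𝓝 ((starRingEnd ℂ) (u y) * (u x : ℂ))) := by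
  have hA : S_ruA := Pool.Agent.H155.GA.ruA
  have hR : Rf (RU T V) := Pool.Agent.H870.GA.ruB hA ι T hT V
  obtain ⟨mp, hp, -⟩ := hR.sp (dv x + dv y)
  obtain ⟨mn, hn, -⟩ := hR.sp (dv x - dv y)
  have := hp.1
  have := hn.1
  have h1 : (((mp.real {e} - mn.real {e}) / 4 : ℝ) : ℂ) = (starRingEnd ℂ) (u y) * (u x : ℂ) :=
    Pool.Agent.H881.SH.mass_eq hA T hT V hR x y mp mn hp hn e u hu hu1 hs
  have h2 := ((cone_lim mp e).sub (cone_lim mn e)).div_const 4
  have h3 : (((mp.real {e} : ℝ) : ℂ) - ((mn.real {e} : ℝ) : ℂ)) / 4 =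
      (starRingEnd ℂ) (u y) * (u x : ℂ) := by
    rw [← h1]
    push_cast
    ring
  rw [h3] at h2
  refine h2.congr' ?_
  filter_upwards [self_mem_nhdsWithin] with z hz
  have h4 := polz hR x y mp mn hp hn z hz.1.ne'
  have h5 : GU T V z x y = RU T V z (dv y) x := rfl
  rw [h5, ← mul_sub, ← h4]
  ring

end Pool.Agent.H121.SD
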