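import Pool.Agent.H121.SD.Cone

/-! Project SD (dynamical localization): the lower bound by finitely many eigenvectors, for the fractional
eigenfunction correlator. -/

set_option autoImplicit false
set_option linter.unusedSectionVars false

open scoped BigOperators InnerProductSpace Topology ENNReal ComplexConjugate
open Filter MeasureTheory

namespace Pool.Agent.H121.SD

open Pool.Agent.Y662.TR (LL dv inner_dv ll_sum ll_summable)
open Pool.Agent.TH369.MU (ep zk)
open Pool.Agent.H987.Z (Rs)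
open Pool.Agent.H121.GA
open Pool.Agent.H717.Z987 (fin_atoms ep_pos' ep_lim)

/-- the density of the fractional correlator -/
noncomputable def KV {ι : Type} (T : LL ι →L[ℂ] LL ι) (V : ι → ℝ) (s : ℝ) (x a : ι) (z : ℂ) : ℝ :=
  (GU T V z a a).im * ‖GU T V z x a / GU T V z a a‖ ^ s

theorem gu_im {ι : Type} (T : LL ι →L[ℂ] LL ι) (hT : Rs T) (V : ι → ℝ) (a : ι) (z : ℂ)
    (hz : 0 < z.im) : 0 ≤ (GU T V z a a).im := by
  have hA : S_ruA := Pool.Agent.H155.GA.ruA
  have hR : Rf (RU T V) := Pool.Agent.H870.GA.ruB hA ι T hT V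
  have h1 := Pool.Agent.H253.GA.im_nsq hR z hz.ne' (dv a)
  rw [inner_dv] at h1
  have h2 : (GU T V z a a).im = z.im * ‖RU T V z (dv a)‖ ^ 2 := h1
  rw [h2]
  positivity

theorem KV_nonneg {ι : Type} (T : LL ι →L[ℂ] LL ι) (hT : Rs T) (V : ι → ℝ) (s : ℝ) (x a : ι) (z : ℂ)
    (hz : 0 < z.im) : 0 ≤ KV T V s x a z := by
  unfold KV
  have := gu_im T hT V a z hz
  positivity

/-- the weight of an eigenvector -/
noncomputable def cw (s p q : ℝ) : ℝ := p ^ (2 - s) * q ^ s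

theorem near {ι : Type} [Countable ι] (w : ℝ → ℝ) (hwc : Continuous w) (hw0 : ∀ E, 0 ≤ w E)
    (T : LL ι →L[ℂ] LL ι) (hT : Rs T) (V : ι → ℝ) (s : ℝ) (hs0 : 0 < s) (hs1 : s ≤ 1) (x a : ι)
    (e : ℝ) (u : LL ι)
    (hu : ∀ p, T u p + ((V p : ℝ) : ℂ) * u p = ((e : ℝ) : ℂ) * u p) (hu1 : ‖u‖ = 1)
    (hs : ∀ v : LL ι, (∀ p, T v p + ((V p : ℝ) : ℂ) * v p = ((e : ℝ) : ℂ) * v p) →
      ∃ a : ℂ, v = a • u) (δ : ℝ) (hδ : 0 < δ) :
    ∃ ρ : ℝ, 0 < ρ ∧ ∀ z ∈ Cn e, dist z (e : ℂ) < ρ →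
      w e * cw s ‖u a‖ ‖u x‖ / 2 - δ ≤ z.im * (w z.re * KV T V s x a z) := by
  by_cases hua : u a = 0
  · refine ⟨1, one_pos, fun z hz _ => ?_⟩
    have h1 : cw s ‖u a‖ ‖u x‖ = 0 := by
      unfold cw
      rw [hua, norm_zero, Real.zero_rpow (by linarith), zero_mul]
    rw [h1, mul_zero, zero_div, zero_sub]
    have h2 := KV_nonneg T hT V s x a z hz.1
    have h3 := hw0 z.re
    have h4 := hz.1
    have h5 : 0 ≤ z.im * (w z.re * KV T V s x a z) := by positivity
    linarith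
  · have hup : 0 < ‖u a‖ := norm_pos_iff.2 hua
    obtain ⟨d0, hd0⟩ : ∃ d0 : ℝ, d0 = ‖u a‖ ^ 2 := ⟨_, rfl⟩
    have hd0p : 0 < d0 := by rw [hd0]; positivity
    have hD := cone_gr T hT V a a e u hu hu1 hs
    have hA := cone_gr T hT V x a e u hu hu1 hs
    have hDl : (starRingEnd ℂ) (u a) * (u a : ℂ) = ((d0 : ℝ) : ℂ) := by
      rw [mul_comm, Complex.mul_conj, Complex.normSq_eq_norm_sq, hd0]
    rw [hDl] at hD
    have hd0c : ((d0 : ℝ) : ℂ) ≠ 0 := by exact_mod_cast hd0p.ne'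
    have hrat : Tendsto (fun z : ℂ => ‖(((e : ℂ) - z) * GU T V z x a) /
        (((e : ℂ) - z) * GU T V z a a)‖ ^ s) (𝓝[Cn e] (e : ℂ)) (𝓝 ((‖u x‖ / ‖u a‖) ^ s)) := by
      have h1 := ((hA.div hD hd0c).norm).rpow_const (p := s) (Or.inr hs0.le)
      have h2 : ‖(starRingEnd ℂ) (u a) * (u x : ℂ) / ((d0 : ℝ) : ℂ)‖ = ‖u x‖ / ‖u a‖ := by
        rw [norm_div, norm_mul, RCLike.norm_conj, Complex.norm_real, Real.norm_of_nonneg hd0p.le, hd0]
        field_simp
      rw [h2] at h1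
      exact h1
    have hdif : Tendsto (fun z : ℂ => ‖((e : ℂ) - z) * GU T V z a a - ((d0 : ℝ) : ℂ)‖)
        (𝓝[Cn e] (e : ℂ)) (𝓝 0) := by
      have h1 := (hD.sub_const ((d0 : ℝ) : ℂ)).norm
      rw [sub_self, norm_zero] at h1
      exact h1
    have hw : Tendsto (fun z : ℂ => w z.re) (𝓝[Cn e] (e : ℂ)) (𝓝 (w e)) := by
      have h1 : Continuous fun z : ℂ => w z.re := hwc.comp Complex.continuous_re
      have h2 := h1.tendsto (e : ℂ)
      simp only [Complex.ofReal_re] at h2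
      exact h2.mono_left nhdsWithin_le_nhds
    have hΦ := (hw.mul ((hdif.const_sub (d0 / 2)).mul hrat))
    have hL : w e * ((d0 / 2 - 0) * (‖u x‖ / ‖u a‖) ^ s) = w e * cw s ‖u a‖ ‖u x‖ / 2 := by
      unfold cw
      rw [Real.div_rpow (norm_nonneg _) hup.le, Real.rpow_sub hup, hd0]
      have h1 : ‖u a‖ ^ (2 : ℝ) = ‖u a‖ ^ 2 := by
        rw [← Real.rpow_natCast]
        norm_num
      rw [h1]
      ring
    rw [hL] at hΦ
    have h1 := hΦ.eventually_const_lt (show w e * cw s ‖u a‖ ‖u x‖ / 2 - δ <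
      w e * cw s ‖u a‖ ‖u x‖ / 2 by linarith)
    obtain ⟨ρ, hρ, hρ2⟩ := Metric.mem_nhdsWithin_iff.1 h1
    refine ⟨ρ, hρ, fun z hz hdist => ?_⟩
    have h2 : w e * cw s ‖u a‖ ‖u x‖ / 2 - δ < w z.re *
        ((d0 / 2 - ‖((e : ℂ) - z) * GU T V z a a - ((d0 : ℝ) : ℂ)‖) *
          ‖(((e : ℂ) - z) * GU T V z x a) / (((e : ℂ) - z) * GU T V z a a)‖ ^ s) :=
      hρ2 ⟨Metric.mem_ball.2 hdist, hz⟩
    refine h2.le.trans ?_
    have hez : (e : ℂ) - z ≠ 0 := by
      intro h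
      have := cn_ge hz
      rw [h, norm_zero] at this
      exact absurd hz.1 (not_lt.2 this)
    rw [mul_div_mul_left _ _ hez]
    have hkey : d0 / 2 - ‖((e : ℂ) - z) * GU T V z a a - ((d0 : ℝ) : ℂ)‖ ≤
        z.im * (GU T V z a a).im := by
      obtain ⟨Y, hY⟩ : ∃ Y : ℂ, Y = ((e : ℂ) - z) * GU T V z a a - ((d0 : ℝ) : ℂ) := ⟨_, rfl⟩
      rw [← hY]
      have hN0 : 0 < ‖(e : ℂ) - z‖ := norm_pos_iff.2 hez
      have h3 : GU T V z a a = (((d0 : ℝ) : ℂ) + Y) / ((e : ℂ) - z) := by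
        rw [hY]
        field_simp
        ring
      have h4 : (((d0 : ℝ) : ℂ) / ((e : ℂ) - z)).im = d0 * z.im / ‖(e : ℂ) - z‖ ^ 2 := by
        rw [Complex.div_im]
        simp only [Complex.ofReal_im, Complex.ofReal_re, zero_mul, zero_div, Complex.sub_im,
          Complex.normSq_eq_norm_sq]
        ring
      have h5 : -(‖Y‖ / ‖(e : ℂ) - z‖) ≤ (Y / ((e : ℂ) - z)).im := by
        have := Complex.abs_im_le_norm (Y / ((e : ℂ) - z))
        rw [norm_div] at this
        exact (abs_le.1 this).1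
      rw [h3, add_div, Complex.add_im, h4]
      have h6 := cn_ge hz
      have h7 := cn_sq hz
      have h8 := hz.1
      have h9 : d0 / 2 ≤ z.im * (d0 * z.im / ‖(e : ℂ) - z‖ ^ 2) := by
        have e1 : z.im * (d0 * z.im / ‖(e : ℂ) - z‖ ^ 2) = d0 * z.im ^ 2 / ‖(e : ℂ) - z‖ ^ 2 := by
          ring
        rw [e1, le_div_iff₀ (by positivity)]
        nlinarith
      have h10 : z.im * (‖Y‖ / ‖(e : ℂ) - z‖) ≤ ‖Y‖ := by
        have e1 : z.im * (‖Y‖ / ‖(e : ℂ) - z‖) = ‖Y‖ * z.im / ‖(e : ℂ) - z‖ := by ring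
        rw [e1, div_le_iff₀ hN0]
        exact mul_le_mul_of_nonneg_left h6 (norm_nonneg _)
      nlinarith
    unfold KV
    have h3 := hw0 z.re
    have h4 : 0 ≤ ‖GU T V z x a / GU T V z a a‖ ^ s := by positivity
    calc w z.re * ((d0 / 2 - ‖((e : ℂ) - z) * GU T V z a a - ((d0 : ℝ) : ℂ)‖) *
          ‖GU T V z x a / GU T V z a a‖ ^ s) ≤
        w z.re * ((z.im * (GU T V z a a).im) * ‖GU T V z x a / GU T V z a a‖ ^ s) := by
          apply mul_le_mul_of_nonneg_left _ h3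
          exact mul_le_mul_of_nonneg_right hkey h4
      _ = _ := by ring

/-- **the lower bound** -/
theorem wiQ {ι : Type} [Countable ι] (w : ℝ → ℝ) (hwc : Continuous w) (hw0 : ∀ E, 0 ≤ w E)
    (T : LL ι →L[ℂ] LL ι) (hT : Rs T) (V : ι → ℝ) (s : ℝ) (hs0 : 0 < s) (hs1 : s ≤ 1) (x a : ι)
    (n : ℕ) (e : Fin n → ℝ) (u : Fin n → LL ι)
    (hu : ∀ j p, T (u j) p + ((V p : ℝ) : ℂ) * u j p = ((e j : ℝ) : ℂ) * u j p)
    (hu1 : ∀ j, ‖u j‖ = 1) (hinj : Function.Injective e)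
    (hs : ∀ j (v : LL ι), (∀ p, T v p + ((V p : ℝ) : ℂ) * v p = ((e j : ℝ) : ℂ) * v p) →
      ∃ a : ℂ, v = a • u j) :
    ∑ j, ENNReal.ofReal (w (e j) * cw s ‖u j a‖ ‖u j x‖) ≤
      liminf (fun k => ∫⁻ E : ℝ, ENNReal.ofReal (w E * KV T V s x a (zk E k))) atTop := by
  classical
  have main : ∀ δ : ℝ, 0 < δ →
      ∑ j, ENNReal.ofReal (2 * (w (e j) * cw s ‖u j a‖ ‖u j x‖ / 2 - δ)) ≤
      liminf (fun k => ∫⁻ E : ℝ, ENNReal.ofReal (w E * KV T V s x a (zk E k))) atTop := by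
    intro δ hδ
    have h1 := fun j => near w hwc hw0 T hT V s hs0 hs1 x a (e j) (u j) (hu j) (hu1 j) (hs j) δ hδ
    choose ρ hρ hρ2 using h1
    refine le_liminf_of_le (by isBoundedDefault) ?_
    have hep1 : ∀ j, ∀ᶠ k in atTop, 2 * ep k < ρ j := by
      intro j
      have h2 := ep_lim.const_mul 2
      rw [mul_zero] at h2
      exact h2.eventually_lt_const (hρ j)
    have hep2 : ∀ i j, ∀ᶠ k in atTop, i ≠ j → 2 * ep k < |e i - e j| := by
      intro i j
      by_cases hij : i = j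
      · exact Eventually.of_forall fun k h => absurd hij h
      · have h2 := ep_lim.const_mul 2
        rw [mul_zero] at h2
        have h3 : 0 < |e i - e j| := abs_pos.2 (sub_ne_zero.2 fun h => hij (hinj h))
        filter_upwards [h2.eventually_lt_const h3] with k hk _
        exact hk
    filter_upwards [eventually_all.2 hep1, eventually_all.2 fun i => eventually_all.2 (hep2 i)]
      with k hk1 hk2
    have hεk := ep_pos' k
    obtain ⟨W, hW⟩ : ∃ W : Fin n → Set ℝ, ∀ j, W j = Set.Icc (e j - ep k) (e j + ep k) :=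
      ⟨fun j => Set.Icc (e j - ep k) (e j + ep k), fun _ => rfl⟩
    have hWm : ∀ j, MeasurableSet (W j) := fun j => by rw [hW]; exact measurableSet_Icc
    have hWd : Pairwise (Function.onFun Disjoint W) := by
      intro i j hij
      rw [Function.onFun, Set.disjoint_left]
      intro E hEi hEj
      rw [hW, Set.mem_Icc] at hEi hEj
      have h3 := hk2 i j hij
      have h4 : |e i - e j| ≤ 2 * ep k := by
        rw [abs_le]
        constructor <;> linarith [hEi.1, hEi.2, hEj.1, hEj.2]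
      linarith
    have hlow : ∀ j, ENNReal.ofReal (2 * (w (e j) * cw s ‖u j a‖ ‖u j x‖ / 2 - δ)) ≤
        ∫⁻ E in W j, ENNReal.ofReal (w E * KV T V s x a (zk E k)) := by
      intro j
      obtain ⟨L, hL⟩ : ∃ L : ℝ, L = w (e j) * cw s ‖u j a‖ ‖u j x‖ / 2 - δ := ⟨_, rfl⟩
      rw [← hL]
      have h3 : ∀ E ∈ W j, ENNReal.ofReal (L / ep k) ≤
          ENNReal.ofReal (w E * KV T V s x a (zk E k)) := by
        intro E hE
        rw [hW, Set.mem_Icc] at hE
        have hre : (zk E k).re = E := by simp [Pool.Agent.TH369.MU.zk]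
        have him : (zk E k).im = ep k := by simp [Pool.Agent.TH369.MU.zk]
        have hab : |E - e j| ≤ ep k := by
          rw [abs_le]
          constructor <;> linarith [hE.1, hE.2]
        have hC : zk E k ∈ Cn (e j) := by
          refine ⟨by rw [him]; exact hεk, ?_⟩
          rw [hre, him]
          exact hab
        have hd : dist (zk E k) ((e j : ℝ) : ℂ) < ρ j := by
          rw [dist_comm, dist_eq_norm]
          refine lt_of_le_of_lt (cn_le hC) ?_
          rw [him]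
          exact hk1 j
        have h4 := hρ2 j (zk E k) hC hd
        rw [him, hre, ← hL] at h4
        apply ENNReal.ofReal_le_ofReal
        rw [div_le_iff₀ hεk]
        linarith
      calc ENNReal.ofReal (2 * L) = ENNReal.ofReal (L / ep k) * ENNReal.ofReal (2 * ep k) := by
            rw [← ENNReal.ofReal_mul' (by positivity)]
            congr 1
            field_simp
        _ = ∫⁻ _ in W j, ENNReal.ofReal (L / ep k) := by
            rw [setLIntegral_const, hW, Real.volume_Icc]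
            congr 2
            ring
        _ ≤ _ := setLIntegral_mono' (hWm j) h3
    calc ∑ j, ENNReal.ofReal (2 * (w (e j) * cw s ‖u j a‖ ‖u j x‖ / 2 - δ)) ≤
        ∑ j, ∫⁻ E in W j, ENNReal.ofReal (w E * KV T V s x a (zk E k)) :=
          Finset.sum_le_sum fun j _ => hlow j
      _ = ∫⁻ E in ⋃ j, W j, ENNReal.ofReal (w E * KV T V s x a (zk E k)) := by
          rw [lintegral_iUnion hWm hWd, tsum_fintype]
      _ ≤ _ := setLIntegral_le_lintegral _ _
  have hlim : Tendsto (fun δ : ℝ => ∑ j, ENNReal.ofReal (2 * (w (e j) * cw s ‖u j a‖ ‖u j x‖ / 2 - δ)))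
      (𝓝[>] 0) (𝓝 (∑ j, ENNReal.ofReal (w (e j) * cw s ‖u j a‖ ‖u j x‖))) := by
    refine tendsto_finsetSum _ fun j _ => ?_
    have h1 : Continuous fun δ : ℝ =>
        ENNReal.ofReal (2 * (w (e j) * cw s ‖u j a‖ ‖u j x‖ / 2 - δ)) := by
      refine ENNReal.continuous_ofReal.comp ?_
      fun_prop
    have h2 := h1.tendsto 0
    have h3 : 2 * (w (e j) * cw s ‖u j a‖ ‖u j x‖ / 2 - 0) = w (e j) * cw s ‖u j a‖ ‖u j x‖ := by
      ring
    rw [h3] at h2
    exact h2.mono_left nhdsWithin_le_nhds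
  refine le_of_tendsto hlim ?_
  filter_upwards [self_mem_nhdsWithin] with δ hδ
  exact main δ hδ

end Pool.Agent.H121.SD
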