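import Pool.Agent.H115.SH.Eta
import Pool.Agent.H121.SH.GenA
import Pool.Agent.H121.SD.Low

/-! Project SD (dynamical localization): the average of the fractional correlator. -/

set_option autoImplicit false
set_option linter.unusedSectionVars false

open scoped BigOperators InnerProductSpace Topology ENNReal
open Filter MeasureTheory

namespace Pool.Agent.H121.SD

open Pool.Agent.Y662.TR (LL dv)
open Pool.Agent.H987.Z (Rs)
open Pool.Agent.H987.Y (Ker Op)
open Pool.Agent.H121.UE (rk)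
open Pool.Agent.H121.GA (GU RU S_ruA)
open Pool.Agent.H121.SH
open Pool.Agent.H115.SH (inv_integral inv_integrable rpow_sum_le gs bt core gr_im)

theorem one_intQ (D lam : ℝ) (hD : 0 < D) (hl : 0 < lam)
    (μ : Measure ℝ) (hμ : ∀ A : Set ℝ, MeasurableSet A → μ A ≤ ENNReal.ofReal D * volume A)
    (β : ℂ) (hi : 0 < β.im) :
    ∫⁻ v : ℝ, ENNReal.ofReal ((((lam * v : ℝ) : ℂ) - β)⁻¹).im ∂μ ≤
      ENNReal.ofReal (Real.pi * D / lam) := by
  have hle : μ ≤ ENNReal.ofReal D • volume := by
    rw [Measure.le_iff]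
    intro A hA
    simpa using hμ A hA
  refine (lintegral_mono' hle le_rfl).trans ?_
  rw [lintegral_smul_measure]
  have hη' : 0 < β.im / lam := div_pos hi hl
  have hpt : ∀ v : ℝ, ((((lam * v : ℝ) : ℂ) - β)⁻¹).im =
      (1 / β.im) * (1 + ((v - β.re / lam) / (β.im / lam)) ^ 2)⁻¹ := by
    intro v
    have h1 : ‖((lam * v : ℝ) : ℂ) - β‖ ^ 2 = (lam * v - β.re) ^ 2 + β.im ^ 2 := by
      rw [← Complex.normSq_eq_norm_sq, Complex.normSq_apply]
      simp
      ring
    have h2 : (v - β.re / lam) / (β.im / lam) = (lam * v - β.re) / β.im := by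
      field_simp
    rw [Complex.inv_im, Complex.normSq_eq_norm_sq, h1, h2]
    have h3 : 0 < (lam * v - β.re) ^ 2 + β.im ^ 2 := by positivity
    have h4 : (1 + ((lam * v - β.re) / β.im) ^ 2)⁻¹ =
        β.im ^ 2 / ((lam * v - β.re) ^ 2 + β.im ^ 2) := by
      rw [inv_eq_iff_eq_inv, inv_div]
      field_simp
      ring
    rw [h4]
    simp only [Complex.sub_im, Complex.ofReal_im, zero_sub, neg_neg]
    field_simp
  have h5 : ∫⁻ v : ℝ, ENNReal.ofReal ((((lam * v : ℝ) : ℂ) - β)⁻¹).im =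
      ENNReal.ofReal ((1 / β.im) * ((β.im / lam) * Real.pi)) := by
    rw [← inv_integral (β.re / lam) (β.im / lam) hη', ← integral_const_mul,
      ofReal_integral_eq_lintegral_ofReal ((inv_integrable _ _ hη').const_mul _)
        (Filter.Eventually.of_forall fun v => by positivity)]
    exact lintegral_congr fun v => by rw [hpt v]
  rw [h5, smul_eq_mul, ← ENNReal.ofReal_mul hD.le]
  apply ENNReal.ofReal_le_ofReal
  apply le_of_eq
  field_simp

variable {ι : Type}

/-- the fractional correlator on the level of restricted Green functions -/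
theorem etaQ (hsch : S_sch) (hm : S_measR) (D lam s : ℝ) (hD : 0 < D) (hl : 0 < lam) (hs : 0 < s)
    (hs1 : s ≤ 1) (μ : Measure ℝ) [IsProbabilityMeasure μ] (hμ : Dn D μ) [Countable ι] (K : ℕ)
    (t : ι → ι → ℝ) (N : ι → Finset ι) (hG : Grf K t N) (Ω : Set ι) (z : ℂ) (x y : ι) (hz : 0 < z.im)
    (hx : x ∈ Ω) (hyx : y ≠ x) :
    ∫⁻ ω, ENNReal.ofReal ((GR t (fun p => lam * ω p) Ω z x x).im *
        ‖GR t (fun p => lam * ω p) Ω z x y / GR t (fun p => lam * ω p) Ω z x x‖ ^ s)
        ∂(Measure.infinitePi fun _ : ι => μ) ≤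
      ENNReal.ofReal (Real.pi * D / lam) * ∑ w ∈ N x, fa μ lam s t (Ω \ {x}) z w y := by
  classical
  have hA : S_ruA := Pool.Agent.H155.GA.ruA
  have hmeas : ∀ y, Measurable fun ω : ι → ℝ => GR t (fun p => lam * ω p) Ω z x y := fun y =>
    hm ι K t N hG lam Ω z x y hz.ne'
  have hmeas1 : ∀ w, Measurable fun ω : ι → ℝ => GR t (fun p => lam * ω p) (Ω \ {x}) z w y :=
    fun w => hm ι K t N hG lam (Ω \ {x}) z w y hz.ne'
  have hmm : Measurable fun ω : ι → ℝ => ENNReal.ofReal ((GR t (fun p => lam * ω p) Ω z x x).im *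
      ‖GR t (fun p => lam * ω p) Ω z x y / GR t (fun p => lam * ω p) Ω z x x‖ ^ s) :=
    ((Complex.measurable_im.comp (hmeas x)).mul
      (((hmeas y).div (hmeas x)).norm.pow_const s)).ennreal_ofReal
  rw [Pool.Agent.H121.Z987.lint_resample μ x _ hmm]
  have hinner : ∀ ω : ι → ℝ, ∫⁻ v, ENNReal.ofReal
      ((GR t (fun p => lam * Function.update ω x v p) Ω z x x).im *
        ‖GR t (fun p => lam * Function.update ω x v p) Ω z x y /
          GR t (fun p => lam * Function.update ω x v p) Ω z x x‖ ^ s) ∂μ ≤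
      ENNReal.ofReal (Real.pi * D / lam) *
        ∑ w ∈ N x, ‖GR t (fun p => lam * ω p) (Ω \ {x}) z w y‖ₑ ^ s := by
    intro ω
    have hind : ∀ v : ℝ, ∀ p q, GR t (fun p => lam * Function.update ω x v p) (Ω \ {x}) z p q =
        GR t (fun p => lam * ω p) (Ω \ {x}) z p q := by
      intro v
      exact (hsch ι K t N hG (fun p => lam * ω p) (Ω \ {x}) z hz).2.1 _ (by
        intro p hp
        have hpx : p ≠ x := fun h => hp.2 (by rw [h]; rfl)
        rw [Function.update_of_ne hpx])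
    have hgs : ∀ v : ℝ, gs t N (fun p => lam * Function.update ω x v p) Ω z x y =
        gs t N (fun p => lam * ω p) Ω z x y := by
      intro v
      unfold gs
      exact Finset.sum_congr rfl fun w _ => by rw [hind v]
    have hbt : ∀ v : ℝ, bt t N (fun p => lam * Function.update ω x v p) Ω z x =
        bt t N (fun p => lam * ω p) Ω z x := by
      intro v
      unfold bt
      congr 1
      exact Finset.sum_congr rfl fun w _ => Finset.sum_congr rfl fun w' _ => by rw [hind v]
    obtain ⟨g, hg⟩ : ∃ g, g = gs t N (fun p => lam * ω p) Ω z x y := ⟨_, rfl⟩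
    obtain ⟨β, hβ⟩ : ∃ β, β = bt t N (fun p => lam * ω p) Ω z x := ⟨_, rfl⟩
    have hbi : 0 < β.im := by
      have h3 := (core hA hsch hG (fun p => lam * ω p) Ω z hz hx hyx).2
      rw [← hβ] at h3
      refine lt_of_lt_of_le ?_ h3
      positivity
    have h1 : ∀ v : ℝ, ENNReal.ofReal
        ((GR t (fun p => lam * Function.update ω x v p) Ω z x x).im *
        ‖GR t (fun p => lam * Function.update ω x v p) Ω z x y /
          GR t (fun p => lam * Function.update ω x v p) Ω z x x‖ ^ s) =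
        ENNReal.ofReal ((((lam * v : ℝ) : ℂ) - β)⁻¹).im * ENNReal.ofReal (‖g‖ ^ s) := by
      intro v
      obtain ⟨-, -, -, h4⟩ := hsch ι K t N hG (fun p => lam * Function.update ω x v p) Ω z hz
      obtain ⟨-, h5, h6, -⟩ := h4 x hx
      have h7 := h6 y hyx
      obtain ⟨G, hGd⟩ : ∃ G, G = GR t (fun p => lam * Function.update ω x v p) Ω z x x := ⟨_, rfl⟩
      have h8 : G * (((lam * v : ℝ) : ℂ) - β) = 1 := by
        rw [hβ, ← hbt v, hGd]
        unfold bt
        have h9 : lam * Function.update ω x v x = lam * v := by rw [Function.update_self]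
        rw [h9] at h5
        rw [← h5]
        ring
      have h9 : GR t (fun p => lam * Function.update ω x v p) Ω z x y = -(G * g) := by
        rw [h7, hGd, hg, ← hgs v]
        rfl
      have hG0 : G ≠ 0 := by
        intro h
        rw [h, zero_mul] at h8
        exact zero_ne_one h8
      rw [← hGd, h9]
      have h10 : -(G * g) / G = -g := by field_simp
      rw [h10, norm_neg]
      have h11 : G = (((lam * v : ℝ) : ℂ) - β)⁻¹ := eq_inv_of_mul_eq_one_left h8
      rw [← h11, ENNReal.ofReal_mul' (by positivity)]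
    rw [lintegral_congr h1, lintegral_mul_const' _ _ ENNReal.ofReal_ne_top]
    refine mul_le_mul' (one_intQ D lam hD hl μ hμ β hbi) ?_
    rw [← ENNReal.ofReal_rpow_of_nonneg (norm_nonneg g) hs.le, ofReal_norm, hg]
    unfold gs
    calc ‖∑ w ∈ N x, ((t x w : ℝ) : ℂ) * GR t (fun p => lam * ω p) (Ω \ {x}) z w y‖ₑ ^ s
        ≤ (∑ w ∈ N x, ‖((t x w : ℝ) : ℂ) * GR t (fun p => lam * ω p) (Ω \ {x}) z w y‖ₑ) ^ s := by
          gcongr
          exact enorm_sum_le _ _
      _ ≤ (∑ w ∈ N x, ‖GR t (fun p => lam * ω p) (Ω \ {x}) z w y‖ₑ) ^ s := by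
          gcongr with w _
          rw [enorm_mul]
          have h4 : ‖((t x w : ℝ) : ℂ)‖ₑ ≤ 1 := by
            rw [← ofReal_norm, Complex.norm_real, Real.norm_eq_abs, ← ENNReal.ofReal_one]
            exact ENNReal.ofReal_le_ofReal (hG.le x w)
          exact mul_le_of_le_one_left zero_le h4
      _ ≤ ∑ w ∈ N x, ‖GR t (fun p => lam * ω p) (Ω \ {x}) z w y‖ₑ ^ s :=
          rpow_sum_le _ _ s hs hs1
  refine (lintegral_mono hinner).trans (le_of_eq ?_)
  rw [lintegral_const_mul _ (Finset.measurable_sum _ fun w _ => ((hmeas1 w).enorm.pow_const s)),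
    lintegral_finsetSum _ fun w _ => ((hmeas1 w).enorm.pow_const s)]
  rfl

/-- the bound of the averages of the fractional correlator -/
def BndQ (I : Set ℝ) (T : LL ι →L[ℂ] LL ι) (lam s : ℝ) (μ : Measure ℝ) (b : ι → ι → ℝ≥0∞) : Prop :=
  ∀ x a : ι, x ≠ a → ∀ z : ℂ, 0 < z.im → z.re ∈ I →
    ∫⁻ ω, ENNReal.ofReal (KV T (fun p => lam * ω p) s x a z)
      ∂(Measure.infinitePi fun _ : ι => μ) ≤ b a x

theorem bT_bndQ [Countable ι] (hsch : S_sch) (hmeas : S_measR) (D' lam s L M1 : ℝ) (hD : 0 < D')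
    (hlam : 0 < lam)
    (hs : 0 < s) (hs1 : s ≤ 1) (hM : 1 ≤ M1) (μ : Measure ℝ) [IsProbabilityMeasure μ]
    (hμ : Dn D' μ) (A I : Set ℝ) (hA : MeasurableSet A) (K : ℕ)
    (t : ι → ι → ℝ) (N : ι → Finset ι) (ht : Grf K t N) :
    BndQ I (Op t) lam s μ (bT D' lam s L M1 μ A I t N) := by
  intro x a hxa z hz hzI
  have h1 := etaQ hsch hmeas D' lam s hD hlam hs hs1 μ hμ K t N ht Set.univ z a x hz
    (Set.mem_univ _) hxa
  have h2 : ∀ ω : ι → ℝ, KV (Op t) (fun p => lam * ω p) s x a z =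
      (GR t (fun p => lam * ω p) Set.univ z a a).im *
        ‖GR t (fun p => lam * ω p) Set.univ z a x / GR t (fun p => lam * ω p) Set.univ z a a‖ ^ s := by
    intro ω
    have hsy := (hsch ι K t N ht (fun p => lam * ω p) Set.univ z hz).1
    unfold KV
    rw [hsy a x, gr_univ, gr_univ]
  simp only [h2]
  refine h1.trans ?_
  unfold bT
  refine mul_le_mul_right (Finset.sum_le_sum fun w _ => ?_) _
  exact fa_le_FiA hmeas μ A I hA lam s L M1 hM K t N ht _ z hz hzI w x

end Pool.Agent.H121.SD
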