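import Pool.Agent.H121.SD.GenQ

/-! Project SD: dynamical localization for the Gaussian Anderson model. -/

set_option autoImplicit false
set_option linter.unusedSectionVars false

open scoped BigOperators InnerProductSpace Topology ENNReal
open Filter MeasureTheory ProbabilityTheory

namespace Pool.Agent.H121.SD

open Pool.Agent.Y662.TR (LL dv lmk ll_ext ll_summable)
open Pool.Agent.H987.Z (Rs SqS IsSp)
open Pool.Agent.H987.Y (Op Lt Ker)
open Pool.Agent.H121.GA (RU SpR SAd sad_of spr_of of_spr S_ruA S_ruB S_atom S_weyA S_weyB)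
open Pool.Agent.H121.MY (adj adj_nn adj_sy adj_act adj_hasSum)
open Pool.Agent.H121.SH

/-- **the theorem** -/
theorem mainQ (D D' ε δ b : ℝ) (hD : 0 < D) (hD' : 0 < D') (hε : 0 < ε) (hδ : 0 < δ) :
    ∃ (K0 : ℕ) (γ C : ℝ), 2 ≤ K0 ∧ 0 < γ ∧ 0 < C ∧
    ∀ K : ℕ, K0 ≤ K → ∀ lam : ℝ, (1 + ε) * (4 * D * K * Real.log K) ≤ lam →
    ∀ (ι : Type) [Countable ι] (t : ι → ι → ℝ) (N : ι → Finset ι), Grf K t N →
    ∀ r : ι → ℕ, (∀ x, ∀ w ∈ N x, r w ≤ r x + 1) →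
    ∀ (μ : Measure ℝ) [IsProbabilityMeasure μ], Dn D' μ →
      (∀ B : Set ℝ, MeasurableSet B → μ (B ∩ {v | b - 2 * δ ≤ |v|}) ≤ ENNReal.ofReal D * volume B) →
      ∀ (a : ι), r a = 0 → ∀ (M η : ℝ) (R : ℕ), 0 < M → 0 < η → C * M * Real.exp (-(γ * R)) ≤ η ^ 2 →
        RadBD (Op t) lam μ r a (b * lam) (M * lam) η R := by
  have hru := Pool.Agent.H155.GA.ruA
  have hmU := Pool.Agent.H738.GA.mU hru Pool.Agent.H100.GA.opb
  have hone := Pool.Agent.H333.SH.one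
  have htwo := Pool.Agent.H339.SH.two hone
  have hmeas := Pool.Agent.H339.SH.measR
  have honeA := Pool.Agent.H872.SH.oneA
  have htwoA := Pool.Agent.H643.SH.twoA htwo
  exact genQ sch_ok hmeas
    (Pool.Agent.H550.SH.resnA sch_ok (Pool.Agent.H591.SH.pair sch_ok) honeA htwoA hmeas)
    (Pool.Agent.H383.SH.mainA sch_ok honeA hmeas)
    (Pool.Agent.H23.SH.bA hmeas)
    Pool.Agent.H740.SH.parH hmU Pool.Agent.H740.SH.simU ker_rs D D' ε δ b hD hD' hε hδ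

/-- **the theorem on the lattice** -/
theorem latQ (D D' ε δ b : ℝ) (hD : 0 < D) (hD' : 0 < D') (hε : 0 < ε) (hδ : 0 < δ) :
    ∃ (d0 : ℕ) (γ C : ℝ), 3 ≤ d0 ∧ 0 < γ ∧ 0 < C ∧
    ∀ d : ℕ, d0 ≤ d → ∀ lam : ℝ, (1 + ε) * (8 * D * (d * Real.log d)) ≤ lam →
    ∀ c : ℝ, |c| ≤ 1 → ∀ (μ : Measure ℝ) [IsProbabilityMeasure μ], Dn D' μ →
      (∀ B : Set ℝ, MeasurableSet B → μ (B ∩ {v | b - 2 * δ ≤ |v|}) ≤ ENNReal.ofReal D * volume B) →
      ∀ (a : Lt d) (M η : ℝ) (R : ℕ), 0 < M → 0 < η → C * M * Real.exp (-(γ * R)) ≤ η ^ 2 →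
        RadBD (Op fun x y : Lt d => c * adj d x y) lam μ (ra a) a (b * lam) (M * lam) η R := by
  obtain ⟨K0, γ, C, hK0, hγ, hC, hmain⟩ := mainQ D D' (ε / 2) δ b hD hD' (by positivity) hδ
  have h1 : Tendsto (fun d : ℕ => ε / 2 * Real.log d) atTop atTop :=
    (Real.tendsto_log_atTop.comp tendsto_natCast_atTop_atTop).const_mul_atTop (by positivity)
  obtain ⟨d1, hd1⟩ := eventually_atTop.1 (h1.eventually_ge_atTop ((1 + ε / 2) * Real.log 2))
  refine ⟨max (max 3 K0) d1, γ, C, (le_max_left 3 K0).trans (le_max_left _ _), hγ, hC, ?_⟩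
  intro d hd lam hlam c hc μ _ hμ hμA
  have hd3 : 3 ≤ d := ((le_max_left 3 K0).trans (le_max_left _ _)).trans hd
  have hdK : K0 ≤ d := ((le_max_right 3 K0).trans (le_max_left _ _)).trans hd
  have hdd : d1 ≤ d := (le_max_right _ _).trans hd
  have hd0 : (0 : ℝ) < d := by
    have : (3 : ℝ) ≤ d := by exact_mod_cast hd3
    linarith
  have h2 := hd1 d hdd
  have h3 : (1 + ε / 2) * (4 * D * ((2 * d : ℕ) : ℝ) * Real.log ((2 * d : ℕ) : ℝ)) ≤ lam := by
    refine le_trans ?_ hlam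
    push_cast
    rw [Real.log_mul two_ne_zero hd0.ne']
    have h4 : (1 + ε / 2) * (4 * D * (2 * d) * (Real.log 2 + Real.log d)) =
        8 * D * d * ((1 + ε / 2) * Real.log 2 + (1 + ε / 2) * Real.log d) := by ring
    have h5 : (1 + ε) * (8 * D * (d * Real.log d)) =
        8 * D * d * (ε / 2 * Real.log d + (1 + ε / 2) * Real.log d) := by ring
    rw [h4, h5]
    have h6 : 0 ≤ 8 * D * (d : ℝ) := by positivity
    gcongr
  have hg := grf (d := d) c hc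
  have h4 := fun a : Lt d => hmain (2 * d) (by omega) lam h3 (Lt d) _ _ hg (ra a)
    (fun x w hw => ra_step a x w hw) μ hμ hμA
  exact fun a M η R hM hη hR => h4 a a (ra_self a) M η R hM hη hR

/-- fixed `b`, kernel of the adjacency matrix -/
theorem curve_bQ (b ε : ℝ) (hb : 0 ≤ b) (hε : 0 < ε) (hε1 : ε ≤ 1) :
    ∃ (d0 : ℕ) (γ C : ℝ), 3 ≤ d0 ∧ 0 < γ ∧ 0 < C ∧
    ∀ d : ℕ, d0 ≤ d → ∀ σ : ℝ,
      (1 + ε) * (8 * gaussianPDFReal 0 1 b) * (d * Real.log d) ≤ |σ| →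
      ∀ (a : Lt d) (M η : ℝ) (R : ℕ), 0 < M → 0 < η → C * M * Real.exp (-(γ * R)) ≤ η ^ 2 →
        ∃ G : Set (Lt d → ℝ), MeasurableSet G ∧
          1 - η ≤ (Measure.infinitePi fun _ : Lt d => gaussianReal 0 1).real G ∧
          ∀ ξ ∈ G, RadD (Op fun x y : Lt d => (1 : ℝ) * adj d x y) (fun x => σ * ξ x) (ra a) a
            (b * |σ|) (M * |σ|) η R := by
  have hφ := pdf_pos b
  have hl : 0 < Real.log (1 + ε / 4) := Real.log_pos (by linarith)
  obtain ⟨δ, hδdef⟩ : ∃ δ : ℝ, δ = Real.log (1 + ε / 4) / (2 * (b + 1)) := ⟨_, rfl⟩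
  have hδ : 0 < δ := by rw [hδdef]; positivity
  have hδ2 : 2 * δ * (2 * b) ≤ 2 * Real.log (1 + ε / 4) := by
    rw [hδdef]
    have h1 : 2 * (Real.log (1 + ε / 4) / (2 * (b + 1))) * (2 * b) =
        2 * Real.log (1 + ε / 4) * (b / (b + 1)) := by
      field_simp
    rw [h1]
    have h2 : b / (b + 1) ≤ 1 := by rw [div_le_one (by linarith)]; linarith
    have h3 : 0 ≤ b / (b + 1) := by positivity
    nlinarith
  obtain ⟨d0, γ, C, hd0, hγ, hC, hlat⟩ := latQ ((1 + ε / 4) * gaussianPDFReal 0 1 b)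
    (gaussianPDFReal 0 1 0) (ε / 4) δ b (by positivity) (pdf_pos 0) (by positivity) hδ
  have hthr : ∀ (d : ℕ) (σ : ℝ), d0 ≤ d →
      (1 + ε) * (8 * gaussianPDFReal 0 1 b) * (d * Real.log d) ≤ |σ| →
      (1 + ε / 4) * (8 * ((1 + ε / 4) * gaussianPDFReal 0 1 b) * (d * Real.log d)) ≤ |σ| := by
    intro d σ hd h
    refine le_trans ?_ h
    have hd3 : (3 : ℝ) ≤ d := by exact_mod_cast hd0.trans hd
    have hlog : 0 < Real.log d := Real.log_pos (by linarith)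
    have h1 : (1 + ε / 4) * (1 + ε / 4) ≤ 1 + ε := by nlinarith
    have h2 : 0 ≤ 8 * gaussianPDFReal 0 1 b * (d * Real.log d) := by positivity
    calc (1 + ε / 4) * (8 * ((1 + ε / 4) * gaussianPDFReal 0 1 b) * (d * Real.log d)) =
        ((1 + ε / 4) * (1 + ε / 4)) * (8 * gaussianPDFReal 0 1 b * (d * Real.log d)) := by ring
      _ ≤ (1 + ε) * (8 * gaussianPDFReal 0 1 b * (d * Real.log d)) := by gcongr
      _ = _ := by ring
  have hpos : ∀ (d : ℕ) (σ : ℝ), d0 ≤ d →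
      (1 + ε) * (8 * gaussianPDFReal 0 1 b) * (d * Real.log d) ≤ |σ| → σ ≠ 0 := by
    intro d σ hd hσ h
    rw [h, abs_zero] at hσ
    have hd3 : (3 : ℝ) ≤ d := by exact_mod_cast hd0.trans hd
    have hlog : 0 < Real.log d := Real.log_pos (by linarith)
    have : 0 < (1 + ε) * (8 * gaussianPDFReal 0 1 b) * (d * Real.log d) := by positivity
    linarith
  refine ⟨d0, γ, C, hd0, hγ, hC, fun d hd σ hσ => ?_⟩
  have hσ0 := hpos d σ hd hσ
  have hab : 0 < |σ| := abs_pos.2 hσ0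
  have hT := ker_rs _ _ _ _ (grf (d := d) 1 (by norm_num))
  have hf : Measurable fun v : ℝ => σ / |σ| * v := by fun_prop
  have h1r := hlat d hd |σ| (hthr d σ hd hσ) 1 (by norm_num) (gaussianReal 0 1) gauss_dn
    (fun B hB => gauss_dnA b (ε / 4) (2 * δ) hb (by positivity) (by positivity) hδ2 B hB)
  have hd1 : 1 ≤ d := by omega
  · intro a M η R hM hη hR
    obtain ⟨G, hG1, hG2, hG3⟩ := h1r a M η R hM hη hR
    have hm := mp_map (ι := Lt d) (gaussianReal 0 1) (fun v => σ / |σ| * v) hf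
    simp only [gauss_sgn σ hσ0] at hm
    refine ⟨(fun (ω : Lt d → ℝ) (x : Lt d) => σ / |σ| * ω x) ⁻¹' G, hm.measurable hG1, ?_,
      fun ω hω => ?_⟩
    · rw [hm.measureReal_preimage hG1.nullMeasurableSet]
      exact hG2
    · have h6 := hG3 _ hω
      have h5 : ∀ x : Lt d, |σ| * (σ / |σ| * ω x) = σ * ω x := by
        intro x
        field_simp
      simp only [h5] at h6
      exact h6

theorem radd_mono {ι : Type} (T : LL ι →L[ℂ] LL ι) (V : ι → ℝ) (r : ι → ℕ) (a : ι)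
    (e1 e1' E1 η : ℝ) (R : ℕ) (he : e1 ≤ e1') (h : RadD T V r a e1 E1 η R) :
    RadD T V r a e1' E1 η R := fun n u e hu hue heM θ hθ S hS =>
  h n u e hu hue (fun j => ⟨he.trans (heM j).1, (heM j).2⟩) θ hθ S hS

/-- uniformly in `b ∈ [0, B]` -/
theorem curveQ (B ε : ℝ) (hB : 0 ≤ B) (hε : 0 < ε) (hε1 : ε ≤ 1) :
    ∃ (d0 : ℕ) (γ C : ℝ), 3 ≤ d0 ∧ 0 < γ ∧ 0 < C ∧
    ∀ b : ℝ, 0 ≤ b → b ≤ B → ∀ d : ℕ, d0 ≤ d → ∀ σ : ℝ,
      (1 + ε) * (8 * gaussianPDFReal 0 1 b) * (d * Real.log d) ≤ |σ| →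
      ∀ (a : Lt d) (M η : ℝ) (R : ℕ), 0 < M → 0 < η → C * M * Real.exp (-(γ * R)) ≤ η ^ 2 →
        ∃ G : Set (Lt d → ℝ), MeasurableSet G ∧
          1 - η ≤ (Measure.infinitePi fun _ : Lt d => gaussianReal 0 1).real G ∧
          ∀ ξ ∈ G, RadD (Op fun x y : Lt d => (1 : ℝ) * adj d x y) (fun x => σ * ξ x) (ra a) a
            (b * |σ|) (M * |σ|) η R := by
  have hl : 0 < Real.log (1 + ε / 8) := Real.log_pos (by linarith)
  obtain ⟨s, hs⟩ : ∃ s : ℝ, s = Real.log (1 + ε / 8) / (B + 1) := ⟨_, rfl⟩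
  have hs0 : 0 < s := by rw [hs]; positivity
  have hsB : s * (2 * B) ≤ 2 * Real.log (1 + ε / 8) := by
    rw [hs]
    have h1 : Real.log (1 + ε / 8) / (B + 1) * (2 * B) =
        2 * Real.log (1 + ε / 8) * (B / (B + 1)) := by
      field_simp
    rw [h1]
    have h2 : B / (B + 1) ≤ 1 := by rw [div_le_one (by linarith)]; linarith
    have h3 : 0 ≤ B / (B + 1) := by positivity
    nlinarith
  have hgrid : ∀ i : ℕ, ∃ (d0 : ℕ) (γ C : ℝ), 3 ≤ d0 ∧ 0 < γ ∧ 0 < C ∧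
    ∀ d : ℕ, d0 ≤ d → ∀ σ : ℝ,
      (1 + ε / 2) * (8 * gaussianPDFReal 0 1 (i * s)) * (d * Real.log d) ≤ |σ| →
      ∀ (a : Lt d) (M η : ℝ) (R : ℕ), 0 < M → 0 < η → C * M * Real.exp (-(γ * R)) ≤ η ^ 2 →
        ∃ G : Set (Lt d → ℝ), MeasurableSet G ∧
          1 - η ≤ (Measure.infinitePi fun _ : Lt d => gaussianReal 0 1).real G ∧
          ∀ ξ ∈ G, RadD (Op fun x y : Lt d => (1 : ℝ) * adj d x y) (fun x => σ * ξ x) (ra a) a
            ((i * s) * |σ|) (M * |σ|) η R := fun i =>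
    curve_bQ (i * s) (ε / 2) (by positivity) (by positivity) (by linarith)
  choose d0 γ C h3 hγ hC hmain using hgrid
  obtain ⟨n, hn⟩ : ∃ n : ℕ, n = ⌊B / s⌋₊ + 1 := ⟨_, rfl⟩
  have hne : (Finset.range n).Nonempty := by
    rw [hn]
    exact ⟨0, by simp⟩
  refine ⟨(Finset.range n).sup d0, (Finset.range n).inf' hne γ, (Finset.range n).sup' hne C, ?_, ?_,
    ?_, ?_⟩
  · obtain ⟨i, hi⟩ := hne
    exact (h3 i).trans (Finset.le_sup (f := d0) hi)
  · rw [Finset.lt_inf'_iff]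
    exact fun i _ => hγ i
  · obtain ⟨i, hi⟩ := hne
    exact (hC i).trans_le (Finset.le_sup' C hi)
  · intro b hb hbB d hd σ hσ
    obtain ⟨i, hi⟩ : ∃ i : ℕ, i = ⌊b / s⌋₊ := ⟨_, rfl⟩
    have hi1 : (i : ℝ) * s ≤ b := by
      have h1 : (i : ℝ) ≤ b / s := by
        rw [hi]
        exact Nat.floor_le (by positivity)
      rwa [le_div_iff₀ hs0] at h1
    have hi2 : b - s ≤ (i : ℝ) * s := by
      have h1 : b / s < (i : ℝ) + 1 := by
        rw [hi]
        exact Nat.lt_floor_add_one _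
      rw [div_lt_iff₀ hs0] at h1
      linarith
    have hin : i ∈ Finset.range n := by
      rw [Finset.mem_range, hn, hi]
      exact Nat.lt_succ_of_le (Nat.floor_le_floor (by gcongr))
    have hdi : d0 i ≤ d := (Finset.le_sup (f := d0) hin).trans hd
    have hγi : (Finset.range n).inf' hne γ ≤ γ i := Finset.inf'_le γ hin
    have hCi : C i ≤ (Finset.range n).sup' hne C := Finset.le_sup' C hin
    have hpdf : gaussianPDFReal 0 1 (i * s) ≤ (1 + ε / 8) * gaussianPDFReal 0 1 b := by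
      refine pdf_near b (ε / 8) s _ hb (by positivity) hs0.le ?_ ?_
      · refine le_trans ?_ hsB
        gcongr
      · rw [abs_of_nonneg (by positivity : (0 : ℝ) ≤ i * s)]
        exact hi2
    have hd3 : (3 : ℝ) ≤ d := by exact_mod_cast (h3 i).trans hdi
    have hlog : 0 < Real.log d := Real.log_pos (by linarith)
    have hφ := pdf_pos b
    have hthr : (1 + ε / 2) * (8 * gaussianPDFReal 0 1 (i * s)) * (d * Real.log d) ≤ |σ| := by
      refine le_trans ?_ hσ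
      calc (1 + ε / 2) * (8 * gaussianPDFReal 0 1 (i * s)) * (d * Real.log d) ≤
          (1 + ε / 2) * (8 * ((1 + ε / 8) * gaussianPDFReal 0 1 b)) * (d * Real.log d) := by gcongr
        _ = ((1 + ε / 2) * (1 + ε / 8)) * (8 * gaussianPDFReal 0 1 b * (d * Real.log d)) := by ring
        _ ≤ (1 + ε) * (8 * gaussianPDFReal 0 1 b * (d * Real.log d)) := by
            have h1 : (1 + ε / 2) * (1 + ε / 8) ≤ 1 + ε := by nlinarith
            gcongr
        _ = _ := by ring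
    have g2 := hmain i d hdi σ hthr
    have hmul : (i : ℝ) * s * |σ| ≤ b * |σ| := by gcongr
    · intro a M η R hM hη hR
      obtain ⟨G, hG1, hG2, hG3⟩ := g2 a M η R hM hη (by
        refine le_trans ?_ hR
        have h1 : Real.exp (-(γ i * R)) ≤ Real.exp (-((Finset.range n).inf' hne γ * R)) := by
          apply Real.exp_le_exp.2
          have : (Finset.range n).inf' hne γ * R ≤ γ i * R := by gcongr
          linarith
        have h2 := hC i
        have h4 : 0 ≤ (Finset.range n).sup' hne C := h2.le.trans hCi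
        have h5 : 0 ≤ (Finset.range n).sup' hne C * M := by positivity
        gcongr)
      exact ⟨G, hG1, hG2, fun ξ hξ => radd_mono _ _ _ _ _ _ _ _ _ hmul (hG3 ξ hξ)⟩

/-- **dynamical localization above the mobility curve** -/
theorem fin_curveQ (B ε : ℝ) (hB : 0 ≤ B) (hε : 0 < ε) :
    ∃ d₀ : ℕ, ∀ M η : ℝ, 0 < M → 0 < η → ∃ R : ℕ, ∀ b : ℝ, 0 ≤ b → b ≤ B → ∀ d : ℕ, d₀ ≤ d →
        ∀ σ : ℝ, (1 + ε) * (8 * gaussianPDFReal 0 1 b) * (d * Real.log d) ≤ |σ| →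
        ∀ a : Fin d → ℤ, ∃ G : Set ((Fin d → ℤ) → ℝ), MeasurableSet G ∧
          1 - η ≤ (Measure.infinitePi fun _ : Fin d → ℤ => gaussianReal 0 1).real G ∧
          ∀ ξ ∈ G, ∀ (n : ℕ) (u : Fin n → lp (fun _ : Fin d → ℤ => ℂ) 2) (E : Fin n → ℝ),
            Orthonormal ℂ u → (∀ j x, opG σ ξ (u j) x = E j * u j x) →
            (∀ j, b * |σ| ≤ |E j| ∧ |E j| ≤ M * |σ|) →
            ∀ θ : Fin n → ℂ, (∀ j, ‖θ j‖ ≤ 1) →
            ∀ B : Finset (Fin d → ℤ), (∀ y ∈ B, (R : ℤ) < ∑ i, |y i|) →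
            ∑ y ∈ B, ‖∑ j, θ j * (starRingEnd ℂ) (u j a) * u j (a + y)‖ ^ 2 ≤ η := by
  have hε' : 0 < min ε 1 := lt_min hε one_pos
  obtain ⟨d0, γ, C, hd0, hγ, hC, hmain⟩ := curveQ B (min ε 1) hB hε' (min_le_right _ _)
  have hthr : ∀ (b : ℝ) (d : ℕ) (σ : ℝ), d0 ≤ d →
      (1 + ε) * (8 * gaussianPDFReal 0 1 b) * (d * Real.log d) ≤ |σ| →
      (1 + min ε 1) * (8 * gaussianPDFReal 0 1 b) * (d * Real.log d) ≤ |σ| := by
    intro b d σ hd h
    refine le_trans ?_ h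
    have hd3 : (3 : ℝ) ≤ d := by exact_mod_cast hd0.trans hd
    have hlog : 0 < Real.log d := Real.log_pos (by linarith)
    have hφ := pdf_pos b
    gcongr
    exact min_le_left _ _
  refine ⟨d0, fun M η hM hη => ?_⟩
  obtain ⟨R, hR⟩ := exR C γ M η hγ hη
  refine ⟨R, fun b hb hbB d hd σ hσ a => ?_⟩
  obtain ⟨G, hG1, hG2, hG3⟩ := (hmain b hb hbB d hd σ (hthr b d σ hd hσ)) a M η R hM hη hR
  refine ⟨G, hG1, hG2, fun ω hω n u E hu hE hEM θ hθ B hB => ?_⟩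
  classical
  have hrad := hG3 ω hω n u E hu (fun j p => by rw [← opG_act]; exact hE j p) hEM θ hθ
    (B.map (addLeftEmbedding a)) (fun x hx => ?_)
  · rw [Finset.sum_map] at hrad
    exact hrad
  · rw [Finset.mem_map] at hx
    obtain ⟨y, hy, rfl⟩ := hx
    have h5 := hB y hy
    rw [← ra_add a y] at h5
    exact_mod_cast h5

end Pool.Agent.H121.SD
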