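import Pool.Agent.H121.SD.GenL

/-! Project SD: localization and dynamical localization for all laws of bounded density, with an energy
window, uniformly in the law. -/

set_option autoImplicit false
set_option linter.unusedSectionVars false

open scoped BigOperators InnerProductSpace Topology ENNReal
open Filter MeasureTheory ProbabilityTheory

namespace Pool.Agent.H121.SD

open Pool.Agent.Y662.TR (LL dv lmk ll_ext ll_summable)
open Pool.Agent.H987.Z (Rs SqS IsSp)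
open Pool.Agent.H987.Y (Op Lt Ker)
open Pool.Agent.H121.GA (RU SpR spr_of)
open Pool.Agent.H121.MY (adj)
open Pool.Agent.H121.SH

section fn

variable {X : Type}

/-- localization at the energies `J` on the level of functions: pure point spectrum, decay, simplicity -/
def LocIG (A : (X → ℂ) → X → ℂ) (γ : ℝ) (r : X → ℕ) (J : Set ℝ) : Prop :=
  (∀ (f : X → ℂ) (m : Measure ℝ), SqS f → IsSp A f m → ∃ N : Set ℝ, N.Countable ∧ m (J \ N) = 0) ∧
    (∀ (e : ℝ) (u : X → ℂ), e ∈ J → SqS u → (∀ p, A u p = (e : ℂ) * u p) →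
        Summable fun x => Real.exp (γ * r x) * ‖u x‖ ^ 2) ∧
    ∀ (e : ℝ) (u v : X → ℂ), SqS u → SqS v → (∀ p, A u p = (e : ℂ) * u p) →
      (∀ p, A v p = (e : ℂ) * v p) → (∃ x, u x ≠ 0) → ∃ a : ℂ, ∀ x, v x = a * u x

/-- the operator form -/
def LocIH (T : LL X →L[ℂ] LL X) (V : X → ℝ) (γ : ℝ) (r : X → ℕ) (e0 : ℝ) : Prop :=
  (∀ (φ : LL X) (m : Measure ℝ), SpR (RU T V) φ m →
      ∃ A : Set ℝ, A.Countable ∧ m ({E | e0 < |E|} \ A) = 0) ∧
    (∀ (e : ℝ) (u : LL X), e0 < |e| → (∀ p, T u p + ((V p : ℝ) : ℂ) * u p = (e : ℂ) * u p) →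
        Summable fun x => Real.exp (γ * r x) * ‖u x‖ ^ 2) ∧
    ∀ (e : ℝ) (u v : LL X),
      (∀ p, T u p + ((V p : ℝ) : ℂ) * u p = (e : ℂ) * u p) →
      (∀ p, T v p + ((V p : ℝ) : ℂ) * v p = (e : ℂ) * v p) → u ≠ 0 → ∃ a : ℂ, v = a • u

theorem locih_conv (A : (X → ℂ) → X → ℂ) (T : LL X →L[ℂ] LL X) (hT : Rs T) (V : X → ℝ)
    (hA : ∀ (u : LL X) (x : X), A (fun y => u y) x = T u x + ((V x : ℝ) : ℂ) * u x) (γ : ℝ)
    (r : X → ℕ) (e0 : ℝ) (J : Set ℝ) (hJ : J ⊆ {E | e0 < |E|}) (h : LocIH T V γ r e0) :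
    LocIG A γ r J := by
  have hru := Pool.Agent.H155.GA.ruA
  obtain ⟨h1, h2, h3⟩ := h
  have key : ∀ (u : X → ℂ) (hu : SqS u) (e : ℝ), (∀ p, A u p = (e : ℂ) * u p) →
      ∀ p, T (lmk u hu) p + ((V p : ℝ) : ℂ) * lmk u hu p = (e : ℂ) * lmk u hu p := by
    intro u hu e he p
    rw [← hA]
    exact he p
  refine ⟨fun f m hf hm => ?_, fun e u heJ hu he => ?_, fun e u v hu hv hue hve hx => ?_⟩
  · obtain ⟨N, hN, hmN⟩ := h1 _ m (spr_of hru A T hT V hA f hf m hm)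
    exact ⟨N, hN, measure_mono_null (Set.diff_subset_diff_left hJ) hmN⟩
  · exact h2 e (lmk u hu) (hJ heJ) (key u hu e he)
  · obtain ⟨x, hx⟩ := hx
    obtain ⟨a, ha⟩ := h3 e (lmk u hu) (lmk v hv) (key u hu e hue) (key v hv e hve) (by
      intro h0
      apply hx
      have := congrArg (fun w : LL X => w x) h0
      exact this)
    refine ⟨a, fun x => ?_⟩
    have := congrArg (fun w : LL X => w x) ha
    exact this

end fn

theorem ppdi_map {ι : Type} [Countable ι] (ν : Measure ℝ) [IsProbabilityMeasure ν] (f g : ℝ → ℝ)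
    (hf : Measurable f) (T : LL ι →L[ℂ] LL ι) (lam γ : ℝ) (r : ι → ℕ) (e0 : ℝ)
    (hg : ∀ v, lam * f v = g v) (h : PpDI T lam (ν.map f) γ r e0) :
    ∀ᵐ ω ∂(Measure.infinitePi fun _ : ι => ν), LocIH T (fun x => g (ω x)) γ r e0 := by
  have h1 : ∀ᵐ ω ∂(Measure.infinitePi fun _ : ι => ν.map f), LocIH T (fun x => lam * ω x) γ r e0 := h
  have h2 := (mp_map (ι := ι) ν f hf).quasiMeasurePreserving.ae h1
  filter_upwards [h2] with ω hω
  simp only [hg] at hω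
  exact hω

/-- the window of the shifted law -/
theorem shift_win (D b δ s : ℝ) (μ : Measure ℝ) (hs : 0 ≤ s) (hsδ : s ≤ δ / 4) (hδ : 0 < δ)
    (h : ∀ A : Set ℝ, MeasurableSet A → μ (A ∩ {v | b - δ < |v|}) ≤ ENNReal.ofReal D * volume A)
    (B : Set ℝ) (hB : MeasurableSet B) :
    (μ.map fun v => v + s) (B ∩ {v | b - 2 * (δ / 4) ≤ |v|}) ≤ ENNReal.ofReal D * volume B := by
  have hf : Measurable fun v : ℝ => v + s := by fun_prop
  have hA : MeasurableSet {v : ℝ | b - 2 * (δ / 4) ≤ |v|} := measurableSet_le measurable_const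
    measurable_id.abs
  rw [Measure.map_apply hf (hB.inter hA)]
  have h1 : (fun v : ℝ => v + s) ⁻¹' (B ∩ {v | b - 2 * (δ / 4) ≤ |v|}) ⊆
      ((fun v : ℝ => v + s) ⁻¹' B) ∩ {v | b - δ < |v|} := by
    rintro v ⟨hv1, hv2⟩
    refine ⟨hv1, ?_⟩
    simp only [Set.mem_setOf_eq] at hv2 ⊢
    have h3 : |v + s| ≤ |v| + |s| := abs_add_le _ _
    rw [abs_of_nonneg hs] at h3
    linarith
  calc μ ((fun v : ℝ => v + s) ⁻¹' (B ∩ {v | b - 2 * (δ / 4) ≤ |v|})) ≤
      μ (((fun v : ℝ => v + s) ⁻¹' B) ∩ {v | b - δ < |v|}) := measure_mono h1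
    _ ≤ ENNReal.ofReal D * volume ((fun v : ℝ => v + s) ⁻¹' B) := h _ (hf hB)
    _ = _ := by rw [measure_preimage_add_right]

theorem big_log (t : ℝ) : ∃ d1 : ℕ, ∀ d : ℕ, d1 ≤ d → t ≤ Real.log d :=
  eventually_atTop.1 ((Real.tendsto_log_atTop.comp tendsto_natCast_atTop_atTop).eventually_ge_atTop t)

/-- **all laws with a density bounded by `D'`, and by `D` at `|v| > b - δ`: localization at the energies
`|E| ≥ b λ` above the threshold of the tree** -/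
theorem fin_genI (D D' ε δ b : ℝ) (hD : 0 < D) (hD' : 0 < D') (hε : 0 < ε) (hδ : 0 < δ) :
    ∃ (d₀ : ℕ) (γ : ℝ), 0 < γ ∧
      ∀ d : ℕ, d₀ ≤ d → ∀ lam : ℝ, (1 + ε) * (8 * D * (d * Real.log d)) ≤ lam →
      ∀ (μ : Measure ℝ) [IsProbabilityMeasure μ],
        (∀ A : Set ℝ, MeasurableSet A → μ A ≤ ENNReal.ofReal D' * volume A) →
        (∀ A : Set ℝ, MeasurableSet A →
          μ (A ∩ {v | b - δ < |v|}) ≤ ENNReal.ofReal D * volume A) →
        (∀ᵐ ω ∂(Measure.infinitePi fun _ : Fin d → ℤ => μ),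
          LocIG (opL lam ω) γ (ra 0) {E | b * lam ≤ |E|}) ∧
        ∀ᵐ ω ∂(Measure.infinitePi fun _ : Fin d → ℤ => μ),
          LocIG (opG lam ω) γ (ra 0) {E | b * lam ≤ |E|} := by
  obtain ⟨d0, γ, C, hd0, hγ, hC, hlat⟩ := latA D D' ε (δ / 4) b hD hD' hε (by positivity)
  obtain ⟨d1, hd1⟩ := big_log (1 / (D * δ))
  refine ⟨max d0 d1, γ, hγ, ?_⟩
  intro d hd' lam hlam μ _ hμ hμw
  have hd : d0 ≤ d := (le_max_left _ _).trans hd'
  have hdd := hd1 d ((le_max_right _ _).trans hd')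
  have hd3 : (3 : ℝ) ≤ d := by exact_mod_cast hd0.trans hd
  have hlog : 0 < Real.log d := Real.log_pos (by linarith)
  have hl0 : 0 < lam := lt_of_lt_of_le (by positivity) hlam
  have hs : 2 * (d : ℝ) / lam ≤ δ / 4 := by
    rw [div_le_iff₀ hl0]
    rw [div_le_iff₀ (by positivity)] at hdd
    have h1 : 8 * (d : ℝ) ≤ δ * lam := by
      calc 8 * (d : ℝ) = 8 * d * 1 := by ring
        _ ≤ 8 * d * (Real.log d * (D * δ)) := by gcongr
        _ = δ * (8 * D * (d * Real.log d)) := by ring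
        _ ≤ δ * ((1 + ε) * (8 * D * (d * Real.log d))) := by
            have h2 : 0 < 8 * D * (d * Real.log d) := by positivity
            refine mul_le_mul_of_nonneg_left ?_ hδ.le
            have h3 : 0 < ε * (8 * D * (d * Real.log d)) := mul_pos hε h2
            linarith
        _ ≤ δ * lam := by gcongr
    linarith
  have hsub : {E : ℝ | b * lam ≤ |E|} ⊆ {E | (b - δ / 4) * lam < |E|} := by
    intro E hE
    simp only [Set.mem_setOf_eq] at hE ⊢
    have : 0 < δ / 4 * lam := by positivity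
    nlinarith
  constructor
  · have hf : Measurable fun v : ℝ => v + 2 * (d : ℝ) / lam := by fun_prop
    haveI : IsProbabilityMeasure (μ.map fun v : ℝ => v + 2 * (d : ℝ) / lam) :=
      Measure.isProbabilityMeasure_map hf.aemeasurable
    have h1 := (hlat d hd lam hlam (-1) (by norm_num) _ (shift_dn D' (2 * d / lam) μ hμ)
      (fun B hB => shift_win D b δ (2 * d / lam) μ (by positivity) hs hδ hμw B hB)).1
    have h2 := ppdi_map μ (fun v : ℝ => v + 2 * (d : ℝ) / lam) (fun v => lam * v + 2 * d) hf _ lam γ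
      _ _ (fun v => by field_simp) h1
    filter_upwards [h2] with ω hω
    exact locih_conv (opL lam ω) _ (ker_rs _ _ _ _ (grf (d := d) (-1) (by norm_num))) _
      (fun u x => opL_act lam ω u x) γ _ _ _ hsub hω
  · have h1 := (hlat d hd lam hlam 1 (by norm_num) μ hμ (fun B hB => by
      refine (measure_mono ?_).trans (hμw B hB)
      rintro v ⟨hv1, hv2⟩
      refine ⟨hv1, ?_⟩
      simp only [Set.mem_setOf_eq] at hv2 ⊢
      linarith)).1
    have h2 : ∀ᵐ ω ∂(Measure.infinitePi fun _ : Fin d → ℤ => μ),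
      LocIH (Op fun x y : Lt d => (1 : ℝ) * adj d x y) (fun x => lam * ω x) γ (ra 0)
        ((b - δ / 4) * lam) := h1
    filter_upwards [h2] with ω hω
    exact locih_conv (opG lam ω) _ (ker_rs _ _ _ _ (grf (d := d) 1 (by norm_num))) _
      (fun u x => opG_act lam ω u x) γ _ _ _ hsub hω

/-- **dynamical localization at the energies `b λ ≤ |E| ≤ M λ`** -/
theorem fin_genIQM (D D' ε δ b : ℝ) (hD : 0 < D) (hD' : 0 < D') (hε : 0 < ε) (hδ : 0 < δ) :
    ∃ d₀ : ℕ, ∀ M η : ℝ, 0 < M → 0 < η → ∃ R : ℕ, ∀ d : ℕ, d₀ ≤ d → ∀ lam : ℝ,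
        (1 + ε) * (8 * D * (d * Real.log d)) ≤ lam →
        ∀ (μ : Measure ℝ) [IsProbabilityMeasure μ],
        (∀ A : Set ℝ, MeasurableSet A → μ A ≤ ENNReal.ofReal D' * volume A) →
        (∀ A : Set ℝ, MeasurableSet A →
          μ (A ∩ {v | b - δ < |v|}) ≤ ENNReal.ofReal D * volume A) →
        ∀ a : Fin d → ℤ, ∃ G : Set ((Fin d → ℤ) → ℝ), MeasurableSet G ∧
          1 - η ≤ (Measure.infinitePi fun _ : Fin d → ℤ => μ).real G ∧
          ∀ ω ∈ G, ∀ (n : ℕ) (u : Fin n → lp (fun _ : Fin d → ℤ => ℂ) 2) (E : Fin n → ℝ),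
            Orthonormal ℂ u → (∀ j x, opG lam ω (u j) x = E j * u j x) →
            (∀ j, b * lam ≤ |E j| ∧ |E j| ≤ M * lam) →
            ∀ θ : Fin n → ℂ, (∀ j, ‖θ j‖ ≤ 1) →
            ∀ B : Finset (Fin d → ℤ), (∀ y ∈ B, (R : ℤ) < ∑ i, |y i|) →
            ∑ y ∈ B, ‖∑ j, θ j * (starRingEnd ℂ) (u j a) * u j (a + y)‖ ^ 2 ≤ η := by
  obtain ⟨d0, γ, C, hd0, hγ, hC, hlat⟩ := latQ D D' ε (δ / 4) b hD hD' hε (by positivity)
  refine ⟨d0, fun M η hM hη => ?_⟩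
  obtain ⟨R, hR⟩ := exR C γ M η hγ hη
  refine ⟨R, fun d hd lam hlam μ _ hμ hμw a => ?_⟩
  obtain ⟨G, hG1, hG2, hG3⟩ := hlat d hd lam hlam 1 (by norm_num) μ hμ (fun B hB => by
      refine (measure_mono ?_).trans (hμw B hB)
      rintro v ⟨hv1, hv2⟩
      refine ⟨hv1, ?_⟩
      simp only [Set.mem_setOf_eq] at hv2 ⊢
      linarith) a M η R hM hη hR
  refine ⟨G, hG1, hG2, fun ω hω n u E hu hE hEM θ hθ B hB => ?_⟩
  classical
  have hrad := hG3 ω hω n u E hu (fun j p => by rw [← opG_act]; exact hE j p) hEM θ hθ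
    (B.map (addLeftEmbedding a)) (fun x hx => ?_)
  · rw [Finset.sum_map] at hrad
    exact hrad
  · rw [Finset.mem_map] at hx
    obtain ⟨y, hy, rfl⟩ := hx
    have h5 := hB y hy
    rw [← ra_add a y] at h5
    exact_mod_cast h5

/-- **dynamical localization at the energies `b λ ≤ |E| ≤ 2 λ`** -/
theorem fin_genIQ (D D' ε δ b : ℝ) (hD : 0 < D) (hD' : 0 < D') (hε : 0 < ε) (hδ : 0 < δ) :
    ∃ d₀ : ℕ, ∀ η : ℝ, 0 < η → ∃ R : ℕ, ∀ d : ℕ, d₀ ≤ d → ∀ lam : ℝ,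
        (1 + ε) * (8 * D * (d * Real.log d)) ≤ lam →
        ∀ (μ : Measure ℝ) [IsProbabilityMeasure μ],
        (∀ A : Set ℝ, MeasurableSet A → μ A ≤ ENNReal.ofReal D' * volume A) →
        (∀ A : Set ℝ, MeasurableSet A →
          μ (A ∩ {v | b - δ < |v|}) ≤ ENNReal.ofReal D * volume A) →
        ∀ a : Fin d → ℤ, ∃ G : Set ((Fin d → ℤ) → ℝ), MeasurableSet G ∧
          1 - η ≤ (Measure.infinitePi fun _ : Fin d → ℤ => μ).real G ∧
          ∀ ω ∈ G, ∀ (n : ℕ) (u : Fin n → lp (fun _ : Fin d → ℤ => ℂ) 2) (E : Fin n → ℝ),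
            Orthonormal ℂ u → (∀ j x, opG lam ω (u j) x = E j * u j x) →
            (∀ j, b * lam ≤ |E j| ∧ |E j| ≤ 2 * lam) →
            ∀ θ : Fin n → ℂ, (∀ j, ‖θ j‖ ≤ 1) →
            ∀ B : Finset (Fin d → ℤ), (∀ y ∈ B, (R : ℤ) < ∑ i, |y i|) →
            ∑ y ∈ B, ‖∑ j, θ j * (starRingEnd ℂ) (u j a) * u j (a + y)‖ ^ 2 ≤ η := by
  obtain ⟨d0, h⟩ := fin_genIQM D D' ε δ b hD hD' hε hδ
  exact ⟨d0, fun η hη => h 2 η (by norm_num) hη⟩

end Pool.Agent.H121.SD
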