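import Pool.Agent.H121.SD.UnifQ

/-! Project SD: localization and dynamical localization for all laws of bounded density, uniformly in the law,
above the threshold of the tree. -/

set_option autoImplicit false
set_option linter.unusedSectionVars false

open scoped BigOperators InnerProductSpace Topology ENNReal
open Filter MeasureTheory ProbabilityTheory

namespace Pool.Agent.H121.SD

open Pool.Agent.Y662.TR (LL dv lmk ll_ext ll_summable)
open Pool.Agent.H987.Z (Rs SqS IsSp)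
open Pool.Agent.H987.Y (Op Lt Ker)
open Pool.Agent.H121.GA (RU SpR)
open Pool.Agent.H121.MY (adj)
open Pool.Agent.H121.SH

/-- `(H u)(x) = -∑_i (u(x + e_i) + u(x - e_i) - 2 u(x)) + λ ω(x) u(x)` -/
noncomputable def opL {d : ℕ} (lam : ℝ) (ω : (Fin d → ℤ) → ℝ) (u : (Fin d → ℤ) → ℂ)
    (x : Fin d → ℤ) : ℂ :=
  -∑ i : Fin d, ((u (x + Pi.single i 1) - u x) + (u (x - Pi.single i 1) - u x)) +
    ((lam * ω x : ℝ) : ℂ) * u x

theorem opL_act {d : ℕ} (lam : ℝ) (ω : (Fin d → ℤ) → ℝ) (u : LL (Lt d)) (x : Lt d) :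
    opL lam ω (fun y => u y) x = Op (fun x y : Lt d => (-1 : ℝ) * adj d x y) u x +
      (((lam * ω x + 2 * d : ℝ) : ℝ) : ℂ) * u x :=
  opH_act (fun x => lam * ω x) u x

/-- spectral measures exist -/
theorem opL_sp {d : ℕ} (lam : ℝ) (ω : (Fin d → ℤ) → ℝ) (f : (Fin d → ℤ) → ℂ) (hf : SqS f) :
    ∃ m : Measure ℝ, IsSp (opL lam ω) f m :=
  opH_sp (fun x => lam * ω x) f hf

theorem shift_dn (D b : ℝ) (μ : Measure ℝ) (h : Dn D μ) : Dn D (μ.map fun v => v + b) := by
  intro A hA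
  have hf : Measurable fun v : ℝ => v + b := by fun_prop
  rw [Measure.map_apply hf hA]
  refine (h _ (hf hA)).trans (le_of_eq ?_)
  rw [measure_preimage_add_right]

/-- **all laws of density at most `D`: localization above the threshold of the tree** -/
theorem fin_gen (D ε : ℝ) (hD : 0 < D) (hε : 0 < ε) :
    ∃ (d₀ : ℕ) (γ : ℝ), 0 < γ ∧
      ∀ d : ℕ, d₀ ≤ d → ∀ lam : ℝ, (1 + ε) * (8 * D * (d * Real.log d)) ≤ lam →
      ∀ (μ : Measure ℝ) [IsProbabilityMeasure μ],
        (∀ A : Set ℝ, MeasurableSet A → μ A ≤ ENNReal.ofReal D * volume A) →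
        ∀ᵐ ω ∂(Measure.infinitePi fun _ : Fin d → ℤ => μ), LocF (opL lam ω) γ (ra 0) := by
  obtain ⟨d0, γ, C, hd0, hγ, hC, hlat⟩ := lat D ε hD hε
  refine ⟨d0, γ, hγ, ?_⟩
  intro d hd lam hlam μ _ hμ
  have hd3 : (3 : ℝ) ≤ d := by exact_mod_cast hd0.trans hd
  have hlog : 0 < Real.log d := Real.log_pos (by linarith)
  have hl0 : 0 < lam := lt_of_lt_of_le (by positivity) hlam
  have hf : Measurable fun v : ℝ => v + 2 * (d : ℝ) / lam := by fun_prop
  haveI : IsProbabilityMeasure (μ.map fun v : ℝ => v + 2 * (d : ℝ) / lam) :=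
    Measure.isProbabilityMeasure_map hf.aemeasurable
  have h1 := (hlat d hd lam hlam (-1) (by norm_num) _ (shift_dn D (2 * d / lam) μ hμ)).1
  have h2 := ppd_map μ (fun v : ℝ => v + 2 * (d : ℝ) / lam) (fun v => lam * v + 2 * d) hf _ lam γ _
    (fun v => by field_simp) h1
  filter_upwards [h2] with ω hω
  exact loc_conv (opL lam ω) _ (ker_rs _ _ _ _ (grf (d := d) (-1) (by norm_num))) _
    (fun u x => opL_act lam ω u x) γ _ hω

/-- **all laws of density at most `D` on `[-1, 1]`: dynamical localization above the threshold of the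
tree** -/
theorem fin_genQ (D ε : ℝ) (hD : 0 < D) (hε : 0 < ε) :
    ∃ d₀ : ℕ, ∀ η : ℝ, 0 < η → ∃ R : ℕ, ∀ d : ℕ, d₀ ≤ d → ∀ lam : ℝ,
        (1 + ε) * (8 * D * (d * Real.log d)) ≤ lam →
        ∀ (μ : Measure ℝ) [IsProbabilityMeasure μ],
        (∀ A : Set ℝ, MeasurableSet A → μ A ≤ ENNReal.ofReal D * volume A) →
        μ (Set.Icc (-1) 1)ᶜ = 0 →
        ∀ a : Fin d → ℤ, ∃ G : Set ((Fin d → ℤ) → ℝ), MeasurableSet G ∧
          1 - η ≤ (Measure.infinitePi fun _ : Fin d → ℤ => μ).real G ∧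
          ∀ ω ∈ G, ∀ (n : ℕ) (u : Fin n → lp (fun _ : Fin d → ℤ => ℂ) 2) (E : Fin n → ℝ),
            Orthonormal ℂ u → (∀ j x, opL lam ω (u j) x = E j * u j x) →
            ∀ θ : Fin n → ℂ, (∀ j, ‖θ j‖ ≤ 1) →
            ∀ B : Finset (Fin d → ℤ), (∀ y ∈ B, (R : ℤ) < ∑ i, |y i|) →
            ∑ y ∈ B, ‖∑ j, θ j * (starRingEnd ℂ) (u j a) * u j (a + y)‖ ^ 2 ≤ η := by
  obtain ⟨d0, γ, C, hd0, hγ, hC, hlat⟩ := latQ D D ε 1 0 hD hD hε one_pos
  refine ⟨d0, fun η hη => ?_⟩
  obtain ⟨R, hR⟩ := exR C γ 3 η hγ hη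
  refine ⟨R, fun d hd lam hlam μ _ hμ hμ1 a => ?_⟩
  have hD2 : 1 / 2 ≤ D := by
    have h1 : μ (Set.Icc (-1) 1) = 1 := by
      rw [← prob_compl_eq_zero_iff measurableSet_Icc]
      exact hμ1
    have h2 := hμ (Set.Icc (-1) 1) measurableSet_Icc
    rw [h1, Real.volume_Icc, ← ENNReal.ofReal_mul hD.le, ← ENNReal.ofReal_one] at h2
    have h3 := (ENNReal.ofReal_le_ofReal_iff (by positivity)).1 h2
    linarith
  have hd3 : (3 : ℝ) ≤ d := by exact_mod_cast hd0.trans hd
  have hlog : 0 < Real.log d := Real.log_pos (by linarith)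
  have hlog1 : 1 ≤ Real.log d := by
    rw [Real.le_log_iff_exp_le (by linarith)]
    exact Real.exp_one_lt_d9.le.trans (by linarith)
  have hl0 : 0 < lam := lt_of_lt_of_le (by positivity) hlam
  have hl4 : 4 * (d : ℝ) ≤ lam := by
    refine le_trans ?_ hlam
    have h1 : (d : ℝ) * 1 ≤ d * Real.log d := by gcongr
    have h2 : (0 : ℝ) < d * Real.log d := by positivity
    have h3 : 4 * ((d : ℝ) * Real.log d) ≤ 8 * D * (d * Real.log d) := by
      have : (4 : ℝ) ≤ 8 * D := by linarith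
      gcongr
    have h4 : 0 < ε * (8 * D * (d * Real.log d)) := by positivity
    nlinarith
  have hf : Measurable fun v : ℝ => v + 2 * (d : ℝ) / lam := by fun_prop
  haveI : IsProbabilityMeasure (μ.map fun v : ℝ => v + 2 * (d : ℝ) / lam) :=
    Measure.isProbabilityMeasure_map hf.aemeasurable
  have hdn := shift_dn D (2 * d / lam) μ hμ
  have h1 := hlat d hd lam hlam (-1) (by norm_num) _ hdn
    (fun B hB => (measure_mono Set.inter_subset_left).trans (hdn B hB)) a 3 η R (by norm_num) hη hR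
  obtain ⟨G, hG1, hG2, hG3⟩ := radbd_map μ (fun v : ℝ => v + 2 * (d : ℝ) / lam)
    (fun v => lam * v + 2 * d) hf _ lam _ a _ _ η R (fun v => by field_simp) h1
  have hae : ∀ᵐ ω ∂(Measure.infinitePi fun _ : Fin d → ℤ => μ), ∀ x, |ω x| ≤ 1 := by
    rw [ae_all_iff]
    intro x
    have h3 : MeasurePreserving (fun ω : (Fin d → ℤ) → ℝ => ω x)
        (Measure.infinitePi fun _ : Fin d → ℤ => μ) μ :=
      measurePreserving_eval_infinitePi (fun _ : Fin d → ℤ => μ) x
    refine h3.quasiMeasurePreserving.ae (p := fun v : ℝ => |v| ≤ 1) ?_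
    have h4 : ∀ᵐ v ∂μ, v ∈ Set.Icc (-1 : ℝ) 1 := by
      rw [ae_iff]
      exact hμ1
    filter_upwards [h4] with v hv
    exact abs_le.2 hv
  have hZ : MeasurableSet {ω : (Fin d → ℤ) → ℝ | ∀ x, |ω x| ≤ 1} := by
    rw [Set.setOf_forall]
    refine MeasurableSet.iInter fun x => ?_
    exact measurableSet_le ((measurable_pi_apply x).abs) measurable_const
  refine ⟨G ∩ {ω | ∀ x, |ω x| ≤ 1}, hG1.inter hZ, ?_, ?_⟩
  · refine hG2.trans (le_of_eq ?_)
    rw [Measure.real, Measure.real]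
    congr 1
    refine (measure_inter_conull ?_).symm
    exact hae
  · rintro ω ⟨hω, hω2⟩ n u E hu hE θ hθ B hB
    classical
    have hrad := hG3 ω hω n u E hu (fun j p => by rw [← opL_act]; exact hE j p) (fun j => ?_) θ hθ
      (B.map (addLeftEmbedding a)) (fun x hx => ?_)
    · rw [Finset.sum_map] at hrad
      exact hrad
    · have h4 := eig_bd (Op fun x y : Lt d => (-1 : ℝ) * adj d x y) (fun x => lam * ω x + 2 * d)
        (2 * d) (lam + 2 * d) (E j) (op_norm (-1) (by norm_num)) (by positivity) (fun x => ?_) (u j)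
        (hu.1 j) (fun p => by rw [← opL_act]; exact hE j p)
      · constructor
        · rw [zero_mul]
          exact abs_nonneg _
        · linarith
      · calc |lam * ω x + 2 * d| ≤ |lam * ω x| + |2 * (d : ℝ)| := abs_add_le _ _
          _ ≤ lam + 2 * d := by
            rw [abs_of_nonneg (by positivity : (0 : ℝ) ≤ 2 * d), abs_mul, abs_of_pos hl0]
            have h5 := hω2 x
            nlinarith
    · rw [Finset.mem_map] at hx
      obtain ⟨y, hy, rfl⟩ := hx
      have h5 := hB y hy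
      rw [← ra_add a y] at h5
      exact_mod_cast h5

end Pool.Agent.H121.SD
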