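import Pool.Agent.H121.SD.RadQ
import Pool.Agent.H121.SH.FinB

/-! Project SD: dynamical localization at the energies `|E| ≥ b lam`, on graphs of degree at most `K`. -/

set_option autoImplicit false
set_option linter.unusedSectionVars false

open scoped BigOperators InnerProductSpace Topology ENNReal
open Filter MeasureTheory ProbabilityTheory

namespace Pool.Agent.H121.SD

open Pool.Agent.Y662.TR hiding wt
open Pool.Agent.TH369.MU (SpM ep zk spm_exists)
open Pool.Agent.H987.Z
open Pool.Agent.H987.Y (Ker Op)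
open Pool.Agent.H121.Z987 (wt)
open Pool.Agent.H121.ME (Qw)
open Pool.Agent.H121.GA
open Pool.Agent.H121.SH

variable {ι : Type} [Countable ι]

/-- the time evolution of `δ_a` in the energies `e1 ≤ |E| ≤ E1` does not leave the ball of radius `R` -/
def RadD (T : LL ι →L[ℂ] LL ι) (V : ι → ℝ) (r : ι → ℕ) (a : ι) (e1 E1 η : ℝ) (R : ℕ) : Prop :=
  ∀ (n : ℕ) (u : Fin n → LL ι) (e : Fin n → ℝ), Orthonormal ℂ u →
    (∀ j p, T (u j) p + ((V p : ℝ) : ℂ) * u j p = ((e j : ℝ) : ℂ) * u j p) →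
    (∀ j, e1 ≤ |e j| ∧ |e j| ≤ E1) → ∀ θ : Fin n → ℂ, (∀ j, ‖θ j‖ ≤ 1) →
      ∀ S : Finset ι, (∀ x ∈ S, R < r x) →
        ∑ x ∈ S, ‖∑ j, θ j * (starRingEnd ℂ) (u j a) * (u j x : ℂ)‖ ^ 2 ≤ η

/-- the same with probability `1 - η` -/
def RadBD (T : LL ι →L[ℂ] LL ι) (lam : ℝ) (μ : Measure ℝ) (r : ι → ℕ) (a : ι) (e1 E1 η : ℝ)
    (R : ℕ) : Prop :=
  ∃ G : Set (ι → ℝ), MeasurableSet G ∧
      1 - η ≤ (Measure.infinitePi fun _ : ι => μ).real G ∧
      ∀ ω ∈ G, RadD T (fun p => lam * ω p) r a e1 E1 η R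

/-- **dynamical localization above `b lam` with the constant of the tree for the density at `b`** -/
theorem genQ (hsch : S_sch) (hmeas : S_measR) (hresn : S_resnA) (hmain : S_mainA) (hbA : S_bA)
    (hpar : S_parH) (hmU : S_mU) (hSi : S_simU)
    (hker : ∀ (ι : Type) (K : ℕ) (t : ι → ι → ℝ) (N : ι → Finset ι), Grf K t N → Rs (Op t))
    (D D' ε δ b : ℝ) (hD : 0 < D) (hD' : 0 < D') (hε : 0 < ε) (hδ : 0 < δ) :
    ∃ (K0 : ℕ) (γ C : ℝ), 2 ≤ K0 ∧ 0 < γ ∧ 0 < C ∧
    ∀ K : ℕ, K0 ≤ K → ∀ lam : ℝ, (1 + ε) * (4 * D * K * Real.log K) ≤ lam →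
    ∀ (ι : Type) [Countable ι] (t : ι → ι → ℝ) (N : ι → Finset ι), Grf K t N →
    ∀ r : ι → ℕ, (∀ x, ∀ w ∈ N x, r w ≤ r x + 1) →
    ∀ (μ : Measure ℝ) [IsProbabilityMeasure μ], Dn D' μ →
      (∀ B : Set ℝ, MeasurableSet B → μ (B ∩ {v | b - 2 * δ ≤ |v|}) ≤ ENNReal.ofReal D * volume B) →
      ∀ (a : ι), r a = 0 → ∀ (M η : ℝ) (R : ℕ), 0 < M → 0 < η → C * M * Real.exp (-(γ * R)) ≤ η ^ 2 →
        RadBD (Op t) lam μ r a (b * lam) (M * lam) η R := by
  obtain ⟨K0, L, M1, γ, q, hK0, hL, hM1, hγ, hq, hpar⟩ := hpar D ε δ hD hε hδ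
  have hq1 : 0 < 1 - q := by linarith
  have hL0 : 0 < L := by linarith
  have hπ := Real.pi_pos
  refine ⟨K0, γ, 24 * Real.pi * D' * L * Real.exp γ / (1 - q), hK0, hγ, by positivity, ?_⟩
  intro K hK lam hlamK ι _ t N ht r hr μ _ hμ hμA
  obtain ⟨h, hh, hh2, hlam, hLc, hw⟩ := hpar K hK lam hlamK
  have hlam0 : 0 < lam := by linarith
  have hs : 0 < 1 - h := by linarith
  have hs1 : 1 - h ≤ 1 := by linarith
  have hat := Dn_atom D' μ hμ
  have hT := hker ι K t N ht
  obtain ⟨A, hAdef⟩ : ∃ A : Set ℝ, A = {v | b - 2 * δ ≤ |v|} := ⟨_, rfl⟩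
  obtain ⟨I, hIdef⟩ : ∃ I : Set ℝ, I = {E | (b - δ) * lam < |E|} := ⟨_, rfl⟩
  have hA : MeasurableSet A := by
    rw [hAdef]
    exact measurableSet_le measurable_const measurable_id.abs
  have hSn : Sn D (μ.restrict A) := by
    refine ⟨?_, fun B hB => ?_⟩
    · rw [Measure.restrict_apply MeasurableSet.univ]
      exact prob_le_one
    · rw [Measure.restrict_apply hB, hAdef]
      exact hμA B hB
  have hI : ∀ E ∈ I, ∀ v : ℝ, v ∉ A → δ * lam ≤ |lam * v - E| := by
    intro E hE v hv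
    rw [hIdef] at hE
    rw [hAdef] at hv
    simp only [Set.mem_setOf_eq, not_le] at hE hv
    have h1 : |E| - |lam * v| ≤ |lam * v - E| := by
      rw [abs_sub_comm]
      exact abs_sub_abs_le_abs_sub _ _
    have h2 : |lam * v| = lam * |v| := by rw [abs_mul, abs_of_pos hlam0]
    have h3 : lam * |v| ≤ lam * (b - 2 * δ) := by gcongr
    nlinarith
  have hδl : 0 < δ * lam := by positivity
  have hb := bT_bndQ hsch hmeas D' lam (1 - h) L M1 hD' hlam0 hs hs1 hM1 μ hμ A I hA K t N ht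
  have hsum := bT_sum hsch hmeas hresn hmain hbA D D' lam h (δ * lam) hD hD' hlam hh hh2 hδl μ A I
    hA hSn hI K t N ht L M1 hL hM1 hLc γ q hγ.le hq hw r hr
  · intro a ha M η R hM hη hR
    have he : (b - δ) * lam < b * lam := by nlinarith
    have hMl : 0 < M * lam := by positivity
    have h1 := radQ hmU hSi (wR ((b - δ) * lam) (b * lam) (M * lam)) (wR_cont _ _ _)
      (wR_nonneg _ _ _) (fun E => (wR_le _ _ _ E).trans (wM_wt _ hMl E)) I
      {E | b * lam ≤ |E| ∧ |E| ≤ M * lam}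
      (fun E hE => by rw [hIdef]; exact wR_pos _ _ _ E he hE) (1 / (1 + 4 * (M * lam) ^ 2))
      (by positivity) (fun E hE => wR_in _ _ _ hMl he E hE.1 hE.2) (Op t) hT lam (1 - h) hlam0 hs hs1 μ hat _ hb
      a (M * lam) hMl (Qw_wR _ _ _ hMl) {x | r x ≤ R} (by simp [ha]) η hη ?_
    · obtain ⟨G, hG1, hG2, hG3⟩ := h1
      refine ⟨G, hG1, hG2, fun ω hω n u e hu hue heM θ hθ S hS => ?_⟩
      have h2 := hG3 ω hω n u e hu hue heM S fun x hx => by
        have := hS x hx
        simp only [Set.mem_setOf_eq, not_le]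
        exact this
      rw [Finset.sum_comm] at h2
      exact (Finset.sum_le_sum fun x _ => dyn u hu (1 - h) hs hs1 a x θ hθ).trans h2
    · have h2 : ∑' x : {x : ι // x ∉ {x | r x ≤ R}}, bT D' lam (1 - h) L M1 μ A I t N a x ≤
          ENNReal.ofReal (Real.exp (-(γ * R))) *
            ∑' x, bT D' lam (1 - h) L M1 μ A I t N a x * ENNReal.ofReal (Real.exp (γ * r x)) := by
        rw [← ENNReal.tsum_mul_left]
        refine le_trans ?_ (ENNReal.tsum_comp_le_tsum_of_injective
          (Subtype.val_injective (p := fun x : ι => x ∉ {x | r x ≤ R})) (fun x =>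
            ENNReal.ofReal (Real.exp (-(γ * R))) *
            (bT D' lam (1 - h) L M1 μ A I t N a x * ENNReal.ofReal (Real.exp (γ * r x)))))
        refine ENNReal.tsum_le_tsum fun x => ?_
        have h3 : (1 : ℝ≥0∞) ≤ ENNReal.ofReal (Real.exp (-(γ * R))) *
            ENNReal.ofReal (Real.exp (γ * r x)) := by
          rw [← ENNReal.ofReal_mul (Real.exp_pos _).le, ← Real.exp_add, ← ENNReal.ofReal_one]
          apply ENNReal.ofReal_le_ofReal
          apply Real.one_le_exp
          have h4 : R ≤ r x := by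
            have h5 := x.2
            simp only [Set.mem_setOf_eq, not_le] at h5
            exact h5.le
          have h5 : (R : ℝ) ≤ r x := by exact_mod_cast h4
          nlinarith
        calc bT D' lam (1 - h) L M1 μ A I t N a x = bT D' lam (1 - h) L M1 μ A I t N a x * 1 :=
              (mul_one _).symm
          _ ≤ bT D' lam (1 - h) L M1 μ A I t N a x * (ENNReal.ofReal (Real.exp (-(γ * R))) *
              ENNReal.ofReal (Real.exp (γ * r x))) := by gcongr
          _ = _ := by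
              show _ = ENNReal.ofReal (Real.exp (-(γ * R))) *
                (bT D' lam (1 - h) L M1 μ A I t N a x * ENNReal.ofReal (Real.exp (γ * r x)))
              ring
      have h3 := hsum a
      rw [ha] at h3
      simp only [CharP.cast_eq_zero, mul_zero, Real.exp_zero, mul_one] at h3
      calc ENNReal.ofReal (4 * (M * lam)) *
            ∑' x : {x : ι // x ∉ {x | r x ≤ R}}, bT D' lam (1 - h) L M1 μ A I t N a x
          ≤ ENNReal.ofReal (4 * (M * lam)) * (ENNReal.ofReal (Real.exp (-(γ * R))) *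
            ENNReal.ofReal (Real.pi * D' / lam * (6 * L * Real.exp γ / (1 - q)))) := by
            gcongr
            exact h2.trans (by gcongr)
        _ = ENNReal.ofReal (24 * Real.pi * D' * L * Real.exp γ / (1 - q) * M * Real.exp (-(γ * R))) := by
            rw [← ENNReal.ofReal_mul (by positivity), ← ENNReal.ofReal_mul (by positivity)]
            congr 1
            field_simp
            ring
        _ ≤ _ := ENNReal.ofReal_le_ofReal hR

end Pool.Agent.H121.SD
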