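import Pool.Agent.H121.SD.EtaQ

/-! Project SD (dynamical localization): radii for the fractional correlator. -/

set_option autoImplicit false
set_option linter.unusedSectionVars false

open scoped BigOperators InnerProductSpace Topology ENNReal
open Filter MeasureTheory

namespace Pool.Agent.H121.SD

open Pool.Agent.Y662.TR hiding wt
open Pool.Agent.TH369.MU (SpM ep zk spm_exists)
open Pool.Agent.TH369.MU.PO2 (ep_pos ep_tendsto)
open Pool.Agent.H987.Z
open Pool.Agent.H121.Z987 (wt enorm_rpow zk_im ep_le lint_resample)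
open Pool.Agent.H121.ME (Qw Qw_fin Qw_isFinite Qw_ae)
open Pool.Agent.H121.GA
open Pool.Agent.H121.SH
open Pool.Agent.H139.GA (GW GW_meas closR)

variable {ι : Type} [Countable ι]

/-- the energy average of the fractional correlator -/
noncomputable def SQ (w : ℝ → ℝ) (T : LL ι →L[ℂ] LL ι) (lam s : ℝ) (ω : ι → ℝ) (x a : ι) (k : ℕ) :
    ℝ≥0∞ := ∫⁻ E, ENNReal.ofReal (KV T (fun p => lam * ω p) s x a (zk E k)) ∂(Qw w)

theorem KV_meas (hmU : S_mU) (T : LL ι →L[ℂ] LL ι) (hT : Rs T) (lam s : ℝ) (x a : ι) (k : ℕ) :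
    Measurable (Function.uncurry fun (E : ℝ) (ω : ι → ℝ) =>
      ENNReal.ofReal (KV T (fun p => lam * ω p) s x a (zk E k))) := by
  have h1 := GW_meas hmU T hT lam k a a
  have h2 := GW_meas hmU T hT lam k x a
  exact ((Complex.measurable_im.comp h1).mul ((h2.div h1).norm.pow_const s)).ennreal_ofReal

theorem sec_measE {β : Type} [MeasurableSpace β] (f : ℝ → β → ℝ≥0∞)
    (hf : Measurable (Function.uncurry f)) (b : β) : Measurable fun E => f E b :=
  hf.comp (measurable_id.prodMk measurable_const)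

/-- the section of `KV_meas` -/
theorem KV_meas1 (hmU : S_mU) (T : LL ι →L[ℂ] LL ι) (hT : Rs T) (lam s : ℝ) (x a : ι) (k : ℕ)
    (ω : ι → ℝ) :
    Measurable fun E : ℝ => ENNReal.ofReal (KV T (fun p => lam * ω p) s x a (zk E k)) :=
  sec_measE (fun (E : ℝ) (ω : ι → ℝ) =>
      ENNReal.ofReal (KV T (fun p => lam * ω p) s x a (zk E k))) (KV_meas hmU T hT lam s x a k) ω

theorem SQ_eq (hmU : S_mU) (w : ℝ → ℝ) (hwc : Continuous w) (hw0 : ∀ E, 0 ≤ w E)
    (T : LL ι →L[ℂ] LL ι) (hT : Rs T) (lam s : ℝ) (x a : ι) (k : ℕ) (ω : ι → ℝ) :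
    ∫⁻ E : ℝ, ENNReal.ofReal (w E * KV T (fun p => lam * ω p) s x a (zk E k)) =
      SQ w T lam s ω x a k := by
  have hm1 := KV_meas1 hmU T hT lam s x a k ω
  unfold SQ Pool.Agent.H121.ME.Qw
  rw [lintegral_withDensity_eq_lintegral_mul _ hwc.measurable.ennreal_ofReal hm1]
  refine lintegral_congr fun E => ?_
  rw [Pi.mul_apply, ENNReal.ofReal_mul (hw0 E)]

theorem SQ_meas (hmU : S_mU) (w : ℝ → ℝ) (hw1 : ∀ E, w E ≤ wt E) (T : LL ι →L[ℂ] LL ι)
    (hT : Rs T) (lam s : ℝ) (x a : ι) (k : ℕ) :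
    Measurable fun ω : ι → ℝ => SQ w T lam s ω x a k := by
  unfold SQ
  have := Qw_isFinite w hw1
  exact Measurable.lintegral_prod_left' (KV_meas hmU T hT lam s x a k)

theorem SQ_int (hmU : S_mU) (w : ℝ → ℝ) (hwc : Continuous w) (hw1 : ∀ E, w E ≤ wt E) (I : Set ℝ)
    (hI : ∀ E, 0 < w E → E ∈ I) (T : LL ι →L[ℂ] LL ι) (hT : Rs T)
    (lam s : ℝ) (μ : Measure ℝ) [IsProbabilityMeasure μ] (b : ι → ι → ℝ≥0∞)
    (hb : BndQ I T lam s μ b) (x a : ι) (hxa : x ≠ a) (k : ℕ) :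
    ∫⁻ ω, SQ w T lam s ω x a k ∂(Measure.infinitePi fun _ : ι => μ) ≤ Qw w Set.univ * b a x := by
  unfold SQ
  have := Qw_isFinite w hw1
  have h2 := KV_meas hmU T hT lam s x a k
  rw [← lintegral_lintegral_swap (μ := Qw w) (ν := Measure.infinitePi fun _ : ι => μ)
    (f := fun (E : ℝ) (ω : ι → ℝ) => ENNReal.ofReal
      (KV T (fun p => lam * ω p) s x a (zk E k))) h2.aemeasurable]
  calc ∫⁻ E, ∫⁻ ω, ENNReal.ofReal
          (KV T (fun p => lam * ω p) s x a (zk E k)) ∂(Measure.infinitePi fun _ : ι => μ) ∂(Qw w) ≤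
        ∫⁻ _, b a x ∂(Qw w) := by
        refine lintegral_mono_ae ?_
        filter_upwards [Qw_ae w hwc] with E hE
        exact hb x a hxa (zk E k) (by rw [zk_im]; exact ep_pos k) (by
          have h4 : (zk E k).re = E := by simp [Pool.Agent.TH369.MU.zk]
          rw [h4]
          exact hI E hE)
    _ = _ := by
        rw [lintegral_const]
        ring

/-- **localization radii, dynamical form** -/
theorem radQ (hmU : S_mU) (hSi : S_simU) (w : ℝ → ℝ)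
    (hwc : Continuous w) (hw0 : ∀ E, 0 ≤ w E) (hw1 : ∀ E, w E ≤ wt E)
    (I J : Set ℝ) (hI : ∀ E, 0 < w E → E ∈ I) (κ : ℝ) (hκ0 : 0 < κ) (hJ : ∀ E ∈ J, w E = κ)
    (T : LL ι →L[ℂ] LL ι)
    (hT : Rs T) (lam s : ℝ) (hlam : 0 < lam) (hs0 : 0 < s) (hs1 : s ≤ 1) (μ : Measure ℝ)
    [IsProbabilityMeasure μ]
    (hat : ∀ v : ℝ, μ {v} = 0) (b : ι → ι → ℝ≥0∞)
    (hb : BndQ I T lam s μ b) (a : ι) (M : ℝ) (hM : 0 < M)
    (hQ : Qw w Set.univ ≤ ENNReal.ofReal (κ * (4 * M))) (B : Set ι) (ha : a ∈ B) (η : ℝ) (hη : 0 < η)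
    (hB : ENNReal.ofReal (4 * M) * ∑' x : {x : ι // x ∉ B}, b a x ≤
      ENNReal.ofReal (η ^ 2)) :
    ∃ G : Set (ι → ℝ), MeasurableSet G ∧
      1 - η ≤ (Measure.infinitePi fun _ : ι => μ).real G ∧
      ∀ ω ∈ G, ∀ (n : ℕ) (u : Fin n → LL ι) (e : Fin n → ℝ), Orthonormal ℂ u →
        (∀ j p, T (u j) p + ((lam * ω p : ℝ) : ℂ) * u j p = ((e j : ℝ) : ℂ) * u j p) →
        (∀ j, e j ∈ J) → ∀ S : Finset ι, (∀ x ∈ S, x ∉ B) →
          ∑ j, ∑ x ∈ S, cw s ‖u j a‖ ‖u j x‖ ≤ η := by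
  classical
  obtain ⟨Y, hY⟩ : ∃ Y : (ι → ℝ) → ℝ≥0∞, Y = fun ω => ∑' x : {x : ι // x ∉ B},
      liminf (fun k => SQ w T lam s ω x a k) atTop := ⟨_, rfl⟩
  have hYm : Measurable Y := by
    rw [hY]
    exact Measurable.tsum fun x => Measurable.liminf fun k =>
        SQ_meas hmU w hw1 T hT lam s x a k
  have hYi : ∫⁻ ω, Y ω ∂(Measure.infinitePi fun _ : ι => μ) ≤
      ENNReal.ofReal (κ * η ^ 2) := by
    have h1 : ∀ x : {x : ι // x ∉ B}, ∫⁻ ω, liminf (fun k => SQ w T lam s ω x a k) atTop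
        ∂(Measure.infinitePi fun _ : ι => μ) ≤ Qw w Set.univ * b a x := by
      intro x
      refine (lintegral_liminf_le (μ := Measure.infinitePi fun _ : ι => μ) (u := atTop)
        (f := fun k ω => SQ w T lam s ω x a k)
        fun k => SQ_meas hmU w hw1 T hT lam s x a k).trans ?_
      refine liminf_le_of_frequently_le' (Filter.Eventually.frequently ?_)
      filter_upwards with k
      refine SQ_int hmU w hwc hw1 I hI T hT lam s μ b hb x a ?_ k
      intro h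
      exact x.2 (h ▸ ha)
    calc ∫⁻ ω, Y ω ∂(Measure.infinitePi fun _ : ι => μ) =
        ∑' x : {x : ι // x ∉ B}, ∫⁻ ω, liminf (fun k => SQ w T lam s ω x a k) atTop
          ∂(Measure.infinitePi fun _ : ι => μ) := by
          rw [hY]
          exact lintegral_tsum fun x : {x : ι // x ∉ B} => (Measurable.liminf fun k =>
            SQ_meas hmU w hw1 T hT lam s x a k).aemeasurable
      _ ≤ ∑' x : {x : ι // x ∉ B}, Qw w Set.univ * b a x := ENNReal.tsum_le_tsum h1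
      _ = Qw w Set.univ * ∑' x : {x : ι // x ∉ B}, b a x := ENNReal.tsum_mul_left
      _ ≤ ENNReal.ofReal (κ * (4 * M)) * ∑' x : {x : ι // x ∉ B}, b a x := by
          exact mul_le_mul_left hQ _
      _ = ENNReal.ofReal κ * (ENNReal.ofReal (4 * M) *
            ∑' x : {x : ι // x ∉ B}, b a x) := by
          rw [← mul_assoc (ENNReal.ofReal κ), ← ENNReal.ofReal_mul (by positivity)]
      _ ≤ ENNReal.ofReal κ * ENNReal.ofReal (η ^ 2) := by gcongr
      _ = _ := by rw [← ENNReal.ofReal_mul (by positivity)]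
  obtain ⟨G0, hG0⟩ : ∃ G0 : Set (ι → ℝ), G0 = {ω | Y ω ≤ ENNReal.ofReal (κ * η)} :=
    ⟨_, rfl⟩
  have hG0m : MeasurableSet G0 := by
    rw [hG0]
    exact measurableSet_le hYm measurable_const
  have hmark : (Measure.infinitePi fun _ : ι => μ) G0ᶜ ≤ ENNReal.ofReal η := by
    have h1 : G0ᶜ ⊆ {ω | ENNReal.ofReal (κ * η) ≤ Y ω} := by
      intro ω hω
      rw [hG0] at hω
      simp only [Set.mem_compl_iff, Set.mem_setOf_eq, not_le] at hω
      exact hω.le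
    have h2 := meas_ge_le_lintegral_div (μ := Measure.infinitePi fun _ : ι => μ)
      hYm.aemeasurable (ε := ENNReal.ofReal (κ * η))
      (by simpa using (by positivity : 0 < κ * η)) ENNReal.ofReal_ne_top
    refine (measure_mono h1).trans (h2.trans ?_)
    rw [ENNReal.div_le_iff (by simpa using (by positivity : 0 < κ * η))
      ENNReal.ofReal_ne_top, ← ENNReal.ofReal_mul hη.le]
    refine hYi.trans (le_of_eq ?_)
    congr 1
    ring
  have hsim := hSi ι T hT lam hlam μ hat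
  obtain ⟨Z, hZs, hZm, hZ0⟩ := exists_measurable_superset_of_null hsim
  refine ⟨G0 \ Z, hG0m.diff hZm, ?_, ?_⟩
  · have h1 : (Measure.infinitePi fun _ : ι => μ) (G0 \ Z)ᶜ ≤ ENNReal.ofReal η := by
      have h2 : (G0 \ Z)ᶜ ⊆ G0ᶜ ∪ Z := by
        intro ω hω
        by_cases h : ω ∈ G0
        · right
          by_contra h3
          exact hω ⟨h, h3⟩
        · exact Or.inl h
      refine (measure_mono h2).trans ((measure_union_le _ _).trans ?_)
      rw [hZ0, add_zero]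
      exact hmark
    have h3 : (Measure.infinitePi fun _ : ι => μ).real (G0 \ Z)ᶜ ≤ η := by
      rw [Measure.real]
      exact ENNReal.toReal_le_of_le_ofReal hη.le h1
    have h4 := probReal_compl_eq_one_sub (μ := Measure.infinitePi fun _ : ι => μ)
      (hG0m.diff hZm)
    linarith
  · rintro ω ⟨hω1, hω2⟩ n u e hu hue heM S hS
    have hω3 : ∀ (e : ℝ) (u v : LL ι),
      (∀ p, T u p + ((lam * ω p : ℝ) : ℂ) * u p = (e : ℂ) * u p) →
      (∀ p, T v p + ((lam * ω p : ℝ) : ℂ) * v p = (e : ℂ) * v p) → u ≠ 0 → ∃ a : ℂ, v = a • u := by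
      by_contra h
      exact hω2 (hZs h)
    have hu1 : ∀ j, ‖u j‖ = 1 := hu.1
    have hu0 : ∀ j, u j ≠ 0 := by
      intro j h
      have := hu1 j
      rw [h, norm_zero] at this
      exact zero_ne_one this
    have hinj : Function.Injective e := by
      intro i j hij
      by_contra hne
      obtain ⟨c, hc⟩ := hω3 (e i) (u i) (u j) (hue i) (by rw [hij]; exact hue j) (hu0 i)
      have h1 : ⟪u i, u j⟫_ℂ = 0 := hu.2 hne
      rw [hc, inner_smul_right, inner_self_eq_norm_sq_to_K, hu1 i] at h1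
      simp only [Complex.coe_algebraMap, Complex.ofReal_one, one_pow, mul_one] at h1
      rw [h1, zero_smul] at hc
      exact hu0 j hc
    have hcw0 : ∀ p q : ℝ, 0 ≤ p → 0 ≤ q → 0 ≤ cw s p q := by
      intro p q hp hq
      unfold cw
      positivity
    have h5 : ∀ x ∈ S, ∑ j, ENNReal.ofReal (κ * cw s ‖u j a‖ ‖u j x‖) ≤
        liminf (fun k => SQ w T lam s ω x a k) atTop := by
      intro x _
      have h6 := wiQ w hwc hw0 T hT (fun p => lam * ω p) s hs0 hs1 x a n e u hue hu1 hinj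
        (fun j v hv => hω3 (e j) (u j) v (hue j) hv (hu0 j))
      have h7 : ∀ j, w (e j) = κ := fun j => hJ (e j) (heM j)
      simp only [h7] at h6
      simp only [SQ_eq hmU w hwc hw0 T hT lam s x a _ ω] at h6
      exact h6
    have h6 : ∑ x ∈ S, ∑ j, ENNReal.ofReal (κ * cw s ‖u j a‖ ‖u j x‖) ≤ Y ω := by
      refine (Finset.sum_le_sum h5).trans ?_
      rw [hY]
      have h7 := ENNReal.sum_le_tsum (f := fun x : {x : ι // x ∉ B} =>
        liminf (fun k => SQ w T lam s ω x a k) atTop) (S.subtype fun x => x ∉ B)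
      refine le_trans (le_of_eq ?_) h7
      rw [Finset.sum_subtype_of_mem (fun x => liminf (fun k => SQ w T lam s ω x a k) atTop) hS]
    have h7 : Y ω ≤ ENNReal.ofReal (κ * η) := by
      rw [hG0] at hω1
      exact hω1
    have h8 : ∑ x ∈ S, ∑ j, ENNReal.ofReal (κ * cw s ‖u j a‖ ‖u j x‖) =
        ENNReal.ofReal (κ * ∑ j, ∑ x ∈ S, cw s ‖u j a‖ ‖u j x‖) := by
      rw [Finset.sum_comm, Finset.mul_sum, ENNReal.ofReal_sum_of_nonneg fun j _ =>
        mul_nonneg hκ0.le (Finset.sum_nonneg fun x _ => hcw0 _ _ (norm_nonneg _) (norm_nonneg _))]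
      refine Finset.sum_congr rfl fun j _ => ?_
      rw [Finset.mul_sum, ENNReal.ofReal_sum_of_nonneg fun x _ =>
        mul_nonneg hκ0.le (hcw0 _ _ (norm_nonneg _) (norm_nonneg _))]
    rw [h8] at h6
    have h9 := h6.trans h7
    rw [ENNReal.ofReal_le_ofReal_iff (by positivity)] at h9
    exact le_of_mul_le_mul_left h9 hκ0

/-- Bessel at one site -/
theorem bes {n : ℕ} (u : Fin n → LL ι) (hu : Orthonormal ℂ u) (x : ι) : ∑ j, ‖u j x‖ ^ 2 ≤ 1 := by
  have h1 := hu.sum_inner_products_le (x := dv x) (s := Finset.univ)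
  have h2 : ∀ j, ‖⟪u j, dv x⟫_ℂ‖ = ‖u j x‖ := by
    intro j
    rw [← inner_dv x (u j), ← inner_conj_symm, RCLike.norm_conj]
  simp only [h2] at h1
  refine h1.trans (le_of_eq ?_)
  have h3 : ‖(dv x : LL ι)‖ = 1 := by
    have h4 : ⟪(dv x : LL ι), dv x⟫_ℂ = 1 := by rw [inner_dv]; simp [dv_apply]
    rw [inner_self_eq_norm_sq_to_K] at h4
    have h5 : ((‖(dv x : LL ι)‖ ^ 2 : ℝ) : ℂ) = ((1 : ℝ) : ℂ) := by
      push_cast
      exact h4
    have h6 : ‖(dv x : LL ι)‖ ^ 2 = 1 := by exact_mod_cast h5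
    have h7 := norm_nonneg (dv x : LL ι)
    nlinarith
  rw [h3, one_pow]

/-- the dynamical form -/
theorem dyn {n : ℕ} (u : Fin n → LL ι) (hu : Orthonormal ℂ u) (s : ℝ) (hs0 : 0 < s) (hs1 : s ≤ 1)
    (a x : ι) (θ : Fin n → ℂ) (hθ : ∀ j, ‖θ j‖ ≤ 1) :
    ‖∑ j, θ j * (starRingEnd ℂ) (u j a) * (u j x : ℂ)‖ ^ 2 ≤ ∑ j, cw s ‖u j a‖ ‖u j x‖ := by
  have h1 : ‖∑ j, θ j * (starRingEnd ℂ) (u j a) * (u j x : ℂ)‖ ≤ ∑ j, ‖u j a‖ * ‖u j x‖ := by
    refine (norm_sum_le _ _).trans (Finset.sum_le_sum fun j _ => ?_)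
    rw [norm_mul, norm_mul, RCLike.norm_conj]
    have h2 := hθ j
    calc ‖θ j‖ * ‖u j a‖ * ‖u j x‖ ≤ 1 * ‖u j a‖ * ‖u j x‖ := by gcongr
      _ = _ := by rw [one_mul]
  have h2 : ∀ j, ‖u j a‖ * ‖u j x‖ =
      Real.sqrt (cw s ‖u j a‖ ‖u j x‖) * Real.sqrt (cw s ‖u j x‖ ‖u j a‖) := by
    intro j
    have hp := norm_nonneg (u j a)
    have hq := norm_nonneg (u j x)
    unfold cw
    rw [← Real.sqrt_mul (by positivity)]
    have h3 : ‖u j a‖ ^ (2 - s) * ‖u j x‖ ^ s * (‖u j x‖ ^ (2 - s) * ‖u j a‖ ^ s) =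
        (‖u j a‖ * ‖u j x‖) ^ 2 := by
      have e1 : ∀ p : ℝ, 0 ≤ p → p ^ (2 - s) * p ^ s = p ^ 2 := by
        intro p hp
        rw [← Real.rpow_add_of_nonneg hp (by linarith) hs0.le, ← Real.rpow_natCast]
        congr 1
        push_cast
        ring
      calc ‖u j a‖ ^ (2 - s) * ‖u j x‖ ^ s * (‖u j x‖ ^ (2 - s) * ‖u j a‖ ^ s) =
          (‖u j a‖ ^ (2 - s) * ‖u j a‖ ^ s) * (‖u j x‖ ^ (2 - s) * ‖u j x‖ ^ s) := by ring
        _ = _ := by rw [e1 _ hp, e1 _ hq]; ring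
    rw [h3, Real.sqrt_sq (by positivity)]
  have hc0 : ∀ p q : ℝ, 0 ≤ p → 0 ≤ q → 0 ≤ cw s p q := by
    intro p q hp hq
    unfold cw
    positivity
  have h3 : (∑ j, ‖u j a‖ * ‖u j x‖) ^ 2 ≤
      (∑ j, cw s ‖u j a‖ ‖u j x‖) * ∑ j, cw s ‖u j x‖ ‖u j a‖ := by
    simp_rw [h2]
    have h4 := Finset.sum_mul_sq_le_sq_mul_sq Finset.univ
      (fun j => Real.sqrt (cw s ‖u j a‖ ‖u j x‖)) (fun j => Real.sqrt (cw s ‖u j x‖ ‖u j a‖))
    refine h4.trans (le_of_eq ?_)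
    congr 1
    · exact Finset.sum_congr rfl fun j _ => Real.sq_sqrt (hc0 _ _ (norm_nonneg _) (norm_nonneg _))
    · exact Finset.sum_congr rfl fun j _ => Real.sq_sqrt (hc0 _ _ (norm_nonneg _) (norm_nonneg _))
  have h5 : ∑ j, cw s ‖u j x‖ ‖u j a‖ ≤ 1 := by
    have h6 : ∀ j, cw s ‖u j x‖ ‖u j a‖ ≤ (1 - s / 2) * ‖u j x‖ ^ 2 + (s / 2) * ‖u j a‖ ^ 2 := by
      intro j
      have hp := norm_nonneg (u j x)
      have hq := norm_nonneg (u j a)
      have h7 := Real.geom_mean_le_arith_mean2_weighted (w₁ := 1 - s / 2) (w₂ := s / 2)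
        (p₁ := ‖u j x‖ ^ 2) (p₂ := ‖u j a‖ ^ 2) (by linarith) (by linarith) (by positivity)
        (by positivity) (by ring)
      have e1 : ∀ p r : ℝ, 0 ≤ p → (p ^ 2) ^ r = p ^ (2 * r) := by
        intro p r hp
        rw [← Real.rpow_natCast, ← Real.rpow_mul hp]
        norm_num
      rw [e1 _ _ hp, e1 _ _ hq] at h7
      have e2 : 2 * (1 - s / 2) = 2 - s := by ring
      have e3 : 2 * (s / 2) = s := by ring
      rw [e2, e3] at h7
      exact h7
    calc ∑ j, cw s ‖u j x‖ ‖u j a‖ ≤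
        ∑ j, ((1 - s / 2) * ‖u j x‖ ^ 2 + (s / 2) * ‖u j a‖ ^ 2) := Finset.sum_le_sum fun j _ => h6 j
      _ = (1 - s / 2) * ∑ j, ‖u j x‖ ^ 2 + (s / 2) * ∑ j, ‖u j a‖ ^ 2 := by
          rw [Finset.sum_add_distrib, Finset.mul_sum, Finset.mul_sum]
      _ ≤ (1 - s / 2) * 1 + (s / 2) * 1 := by
          have b1 := bes u hu x
          have b2 := bes u hu a
          have b3 : 0 ≤ 1 - s / 2 := by linarith
          gcongr
      _ = 1 := by ring
  have h6 : 0 ≤ ∑ j, cw s ‖u j a‖ ‖u j x‖ :=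
    Finset.sum_nonneg fun j _ => hc0 _ _ (norm_nonneg _) (norm_nonneg _)
  calc ‖∑ j, θ j * (starRingEnd ℂ) (u j a) * (u j x : ℂ)‖ ^ 2 ≤ (∑ j, ‖u j a‖ * ‖u j x‖) ^ 2 := by
        gcongr
    _ ≤ _ := h3
    _ ≤ (∑ j, cw s ‖u j a‖ ‖u j x‖) * 1 := mul_le_mul_of_nonneg_left h5 h6
    _ = _ := mul_one _

end Pool.Agent.H121.SD
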