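import Pool.Agent.H121.SD.FinQ

/-! Project SD: dynamical localization for the uniform law. -/

set_option autoImplicit false
set_option linter.unusedSectionVars false

open scoped BigOperators InnerProductSpace Topology ENNReal
open Filter MeasureTheory ProbabilityTheory

namespace Pool.Agent.H121.SD

open Pool.Agent.Y662.TR (LL dv lmk ll_ext ll_summable)
open Pool.Agent.H987.Z (Rs SqS IsSp)
open Pool.Agent.H987.Y (Op Lt Ker)
open Pool.Agent.H121.GA (RU SpR)
open Pool.Agent.H121.MY (adj)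
open Pool.Agent.H121.SH

theorem radbd_map {ι : Type} [Countable ι] (ν : Measure ℝ) [IsProbabilityMeasure ν] (f g : ℝ → ℝ)
    (hf : Measurable f) (T : LL ι →L[ℂ] LL ι) (lam : ℝ) (r : ι → ℕ) (a : ι) (e1 E0 η : ℝ) (R : ℕ)
    (hg : ∀ v, lam * f v = g v) (h : RadBD T lam (ν.map f) r a e1 E0 η R) :
    ∃ G : Set (ι → ℝ), MeasurableSet G ∧
      1 - η ≤ (Measure.infinitePi fun _ : ι => ν).real G ∧
      ∀ ω ∈ G, RadD T (fun x => g (ω x)) r a e1 E0 η R := by
  obtain ⟨G, hG1, hG2, hG3⟩ := h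
  have hm := mp_map (ι := ι) ν f hf
  refine ⟨(fun (ω : ι → ℝ) (x : ι) => f (ω x)) ⁻¹' G, hm.measurable hG1, ?_, fun ω hω => ?_⟩
  · rw [hm.measureReal_preimage hG1.nullMeasurableSet]
    exact hG2
  · have h1 := hG3 _ hω
    simp only [hg] at h1
    exact h1

/-- **uniform law: dynamical localization above the threshold of the tree** -/
theorem fin_unifQ (ε : ℝ) (hε : 0 < ε) :
    ∃ d₀ : ℕ, ∀ η : ℝ, 0 < η → ∃ R : ℕ, ∀ d : ℕ, d₀ ≤ d → ∀ c : ℝ,
        (1 + ε) * (4 * (d * Real.log d)) ≤ c →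
        ∀ a : Fin d → ℤ, ∃ G : Set ((Fin d → ℤ) → ℝ), MeasurableSet G ∧
          1 - η ≤ (Measure.infinitePi fun _ : Fin d → ℤ => unif c).real G ∧
          ∀ ω ∈ G, ∀ (n : ℕ) (u : Fin n → lp (fun _ : Fin d → ℤ => ℂ) 2) (E : Fin n → ℝ),
            Orthonormal ℂ u → (∀ j x, opH ω (u j) x = E j * u j x) →
            ∀ θ : Fin n → ℂ, (∀ j, ‖θ j‖ ≤ 1) →
            ∀ B : Finset (Fin d → ℤ), (∀ y ∈ B, (R : ℤ) < ∑ i, |y i|) →
            ∑ y ∈ B, ‖∑ j, θ j * (starRingEnd ℂ) (u j a) * u j (a + y)‖ ^ 2 ≤ η := by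
  obtain ⟨d0, γ, C, hd0, hγ, hC, hlat⟩ := latQ (1 / 2) (1 / 2) ε 1 0 (by norm_num) (by norm_num) hε
    one_pos
  refine ⟨d0, fun η hη => ?_⟩
  obtain ⟨R, hR⟩ := exR C γ 3 η hγ hη
  refine ⟨R, fun d hd c hc a => ?_⟩
  have hd3 : (3 : ℝ) ≤ d := by exact_mod_cast hd0.trans hd
  have hlog : 0 < Real.log d := Real.log_pos (by linarith)
  have hlog1 : 1 ≤ Real.log d := by
    rw [Real.le_log_iff_exp_le (by linarith)]
    exact Real.exp_one_lt_d9.le.trans (by linarith)
  have hc0 : 0 < c := lt_of_lt_of_le (by positivity) hc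
  have hc4 : 4 * (d : ℝ) ≤ c := by
    refine le_trans ?_ hc
    have h1 : (d : ℝ) * 1 ≤ d * Real.log d := by gcongr
    nlinarith
  haveI := unif_prob c hc0
  have hf : Measurable fun v : ℝ => (v + 2 * (d : ℝ)) / c := by fun_prop
  haveI : IsProbabilityMeasure ((unif c).map fun v : ℝ => (v + 2 * (d : ℝ)) / c) :=
    Measure.isProbabilityMeasure_map hf.aemeasurable
  have hdn := unif_dn c (2 * d) hc0
  have h1 := hlat d hd c (by linarith [hc]) (-1) (by norm_num) _ hdn
    (fun B hB => (measure_mono Set.inter_subset_left).trans (hdn B hB)) a 3 η R (by norm_num) hη hR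
  obtain ⟨G, hG1, hG2, hG3⟩ := radbd_map (unif c) (fun v : ℝ => (v + 2 * (d : ℝ)) / c)
    (fun v => v + 2 * d) hf _ c _ a _ _ η R (fun v => by field_simp) h1
  have hae : ∀ᵐ ω ∂(Measure.infinitePi fun _ : Fin d → ℤ => unif c), ∀ x, |ω x| ≤ c := by
    rw [ae_all_iff]
    intro x
    have h3 : MeasurePreserving (fun ω : (Fin d → ℤ) → ℝ => ω x)
        (Measure.infinitePi fun _ : Fin d → ℤ => unif c) (unif c) :=
      measurePreserving_eval_infinitePi (fun _ : Fin d → ℤ => unif c) x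
    exact h3.quasiMeasurePreserving.ae (unif_ae c)
  have hZ : MeasurableSet {ω : (Fin d → ℤ) → ℝ | ∀ x, |ω x| ≤ c} := by
    rw [Set.setOf_forall]
    refine MeasurableSet.iInter fun x => ?_
    exact measurableSet_le ((measurable_pi_apply x).abs) measurable_const
  refine ⟨G ∩ {ω | ∀ x, |ω x| ≤ c}, hG1.inter hZ, ?_, ?_⟩
  · refine hG2.trans (le_of_eq ?_)
    rw [Measure.real, Measure.real]
    congr 1
    refine (measure_inter_conull ?_).symm
    exact hae
  · rintro ω ⟨hω, hω2⟩ n u E hu hE θ hθ B hB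
    classical
    have hrad := hG3 ω hω n u E hu (fun j p => by rw [← opH_act]; exact hE j p) (fun j => ?_) θ hθ
      (B.map (addLeftEmbedding a)) (fun x hx => ?_)
    · rw [Finset.sum_map] at hrad
      exact hrad
    · have h4 := eig_bd (Op fun x y : Lt d => (-1 : ℝ) * adj d x y) (fun x => ω x + 2 * d) (2 * d)
        (c + 2 * d) (E j) (op_norm (-1) (by norm_num)) (by positivity) (fun x => ?_) (u j) (hu.1 j)
        (fun p => by rw [← opH_act]; exact hE j p)
      · constructor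
        · rw [zero_mul]
          exact abs_nonneg _
        · linarith
      · calc |ω x + 2 * d| ≤ |ω x| + |2 * (d : ℝ)| := abs_add_le _ _
          _ ≤ c + 2 * d := by
            rw [abs_of_nonneg (by positivity : (0 : ℝ) ≤ 2 * d)]
            gcongr
            exact hω2 x
    · rw [Finset.mem_map] at hx
      obtain ⟨y, hy, rfl⟩ := hx
      have h5 := hB y hy
      rw [← ra_add a y] at h5
      exact_mod_cast h5

end Pool.Agent.H121.SD
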